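import Pool.Agent.Lib.MP_d308c3_co.K.St
import Pool.Agent.Lib.MP_d308c3_co.K.CellB

set_option autoImplicit false

/-! Marked rows are active in time. -/

namespace Pool.Agent.Lib.MP_d308c3_co.K

open Finset Pool.Agent.Lib.MP_108739_an.F

theorem aT : ActTSt := by
  intro Ω _ A w Λ η Bd e Hn K0 hA he _ r h x
  exact le_trans (tot_res_mono hA.nn fun o _ a => ⟨a.1, a.2.2⟩) (CellB.tact hA r h x he)

end Pool.Agent.Lib.MP_d308c3_co.K
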