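import Pool.Agent.Lib.MP_d308c3_co.K.St
import Pool.Agent.Lib.MP_d308c3_co.K.CellB

set_option autoImplicit false

/-! Selected columns are active in the slope. -/

namespace Pool.Agent.Lib.MP_d308c3_co.K

open Finset Pool.Agent.Lib.MP_108739_an.F

theorem aXP : ActXP := by
  intro Ω _ A w Λ η Bd r0 e Hn K0 s Jb hA hN he r h x
  have h1 := CellB.xact hA hN r h x he
  rw [← le_div_iff₀' hA.eta.1] at h1
  exact h1.trans_eq (by ring)

theorem aX : ActXSt := fun _ => aXP

end Pool.Agent.Lib.MP_d308c3_co.K
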