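import Pool.Agent.Lib.MP_d308c3_co.K.St
import Pool.Agent.Lib.MP_d308c3_co.K.End

/-! The end of the proof: tower of block lengths and the final count. -/

set_option autoImplicit false

namespace Pool.Agent.Lib.MP_d308c3_co.K

open Finset Pool.Agent.Lib.MP_108739_an.F
open scoped Classical

namespace End

variable {Ω : Type} [Fintype Ω] {w : Ω → ℝ}

theorem E_res_true (F : Ω → ℝ) : E (res w fun _ => True) F = E w F := by simp [E, res]

theorem tot_res_true : tot (res w fun _ => True) = tot w := by simp [tot, res]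

/-- lower bound for the total gain -/
theorem gain_low (hw : Nn w) (ht : 0 < tot w) {c : TT Ω} {Λ x : ℝ} {L i : ℕ} (hc : c.Ok Λ L)
    (p : Ω → Pt) (h0 : ∀ o o', c.W 0 o = c.W 0 o') (hth : 0 < c.th) (hi : i ≤ L)
    (hmu : ∀ o, c.mu w p i o ≤ c.N i o) (hp : (#(univ.image p) : ℝ) * c.th ^ x ≤ tot w) :
    (2 * i * lg c.S - (1 - x) * lg c.th) * tot w ≤ E w (c.gain w p 0 i) := by
  have hS : 0 < c.S := by linarith [hc.two]
  have hK : (0 : ℝ) < #(univ.image p) := by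
    rcases isEmpty_or_nonempty Ω with h | ⟨⟨o⟩⟩
    · simp [tot] at ht
    · exact_mod_cast card_pos.2 ⟨p o, mem_image_of_mem _ (mem_univ o)⟩
  have h1 := H_le_mem hw (τ := p) (T := univ.image p)
    (fun o => mem_image_of_mem _ (mem_univ o)) (un : Ω → Unit)
  have e1 : ms w (pr (c.W 0) p) = ms w (pr p un) :=
    ms_congr (Det.pr Det.snd Det.un) (Det.pr (fun o o' _ => h0 o o') Det.fst)
  have h2 : lg (#(univ.image p) : ℝ) + x * lg c.th ≤ lg (tot w) := by
    have a := lg_mono (mul_pos hK (Real.rpow_pos_of_pos hth x)) hp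
    rw [lg_mul hK (Real.rpow_pos_of_pos hth x)] at a
    have b : lg (c.th ^ x) = x * lg c.th := Real.logb_rpow_eq_mul_logb_of_pos hth
    linarith
  have h3 : lg (c.thr i) = lg c.th - 2 * i * lg c.S := by
    unfold TT.thr
    rw [lg_div hth (by positivity), ← pow_mul]
    have : lg (c.S ^ (2 * i)) = (2 * i : ℕ) * lg c.S := by unfold lg; rw [Real.logb_pow]
    rw [this]
    push_cast
    ring
  have h4 : E w (fun o => (lg (tot w) - lg (c.thr i)) -
      lg (ms w un o / ms w (pr p un) o)) ≤ E w (c.gain w p 0 i) := by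
    refine E_mono hw fun o ho => ?_
    have a1 : 0 < c.mu w p i o := ms_pos hw _ ho
    have a2 := lg_mono a1 ((hmu o).trans (hc.size i hi o))
    have a3 : 0 < ms w (pr p un) o := ms_pos hw _ ho
    unfold TT.gain
    rw [show c.mu w p 0 o = ms w (pr p un) o from congrFun e1 o, lg_div a3 a1, ms_un, lg_div ht a3]
    linarith
  rw [E_sub, E_const] at h4
  unfold H at h1
  nlinarith

theorem num {γ δ ℓ L L' k kk Q n nm g t : ℝ} (hγ : 0 < γ) (hγ1 : γ ≤ 1) (hδ : δ = γ / 1000)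
    (hk : 200 ≤ γ * k) (hkk : 4 ≤ γ * kk) (hℓ : 100 ≤ γ * ℓ) (hQ : 1 ≤ Q)
    (hL : 100 * Q ≤ γ * L) (hL1 : L ≤ L' + 2 * Q) (hL2 : L' ≤ L) (hn : n ≤ L)
    (hnm : k * nm = L') (ht : 0 < t)
    (h1 : (2 * L' * ℓ - (1 - (γ - δ)) * (2 * (L + 2) * ℓ)) * t ≤ g)
    (h2 : g ≤ (5 * (δ * L * ℓ * t) + 2 * ℓ * (L * (δ * t)) + 6 * L * t) +
      ((2 + 22) * nm * ℓ + n) * t + (1 + 22) * (δ * L * ℓ * t) +
      22 * ℓ * (δ * L' + δ * L) * t + 2 * ℓ * (L' * t / kk)) : False := by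
  have hk0 : 0 < k := by by_contra h; nlinarith
  have hkk0 : 0 < kk := by by_contra h; nlinarith
  have hℓ0 : 0 < ℓ := by by_contra h; nlinarith
  have hL0 : 0 < L := by by_contra h; nlinarith
  have hL' : 0 < L' := by nlinarith
  have a1 : nm ≤ γ * L / 200 := by
    have : nm = L' / k := by rw [← hnm]; field_simp
    rw [this, div_le_div_iff₀ hk0 (by norm_num)]
    nlinarith
  have a2 : L' / kk ≤ γ * L / 4 := by
    rw [div_le_div_iff₀ hkk0 (by norm_num)]
    nlinarith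
  have a3 : L ≤ γ * L / 100 * ℓ := by nlinarith
  have h3 : 2 * L' * ℓ - (1 - (γ - δ)) * (2 * (L + 2) * ℓ) ≤
      (5 * (δ * L * ℓ) + 2 * ℓ * (L * δ) + 6 * L) + ((2 + 22) * nm * ℓ + n) +
      (1 + 22) * (δ * L * ℓ) + 22 * ℓ * (δ * L' + δ * L) + 2 * ℓ * (L' / kk) := by
    refine le_of_mul_le_mul_right (h1.trans (h2.trans_eq ?_)) ht
    ring
  set X := γ * L with hX
  have b1 : δ * L = X / 1000 := by rw [hδ, hX]; ring
  have b2 : δ * L' ≤ X / 1000 := by rw [← b1]; exact mul_le_mul_of_nonneg_left hL2 (by linarith)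
  have b3 : (1 - (γ - δ)) * (2 * (L + 2)) ≤ 2 * L - 2 * X + 2 * (X / 1000) + 8 := by nlinarith
  have b4 : (2 * X - 2 * (X / 1000) - 8 - 4 * Q) * ℓ ≤
      2 * L' * ℓ - (1 - (γ - δ)) * (2 * (L + 2) * ℓ) := by nlinarith
  have b5 : (5 * (δ * L * ℓ) + 2 * ℓ * (L * δ) + 6 * L) + ((2 + 22) * nm * ℓ + n) +
      (1 + 22) * (δ * L * ℓ) + 22 * ℓ * (δ * L' + δ * L) + 2 * ℓ * (L' / kk) ≤
      (74 * (X / 1000) + 7 * (X / 100) + 24 * (X / 200) + 2 * (X / 4)) * ℓ := by
    have c1 := mul_le_mul_of_nonneg_right a1 hℓ0.le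
    have c2 := mul_le_mul_of_nonneg_right a2 hℓ0.le
    have c3 := mul_le_mul_of_nonneg_right b2 hℓ0.le
    have c4 : δ * L * ℓ = X / 1000 * ℓ := by rw [b1]
    nlinarith
  have b6 := le_of_mul_le_mul_right (b4.trans (h3.trans b5)) hℓ0
  linarith

end End

open End in
theorem en : EndSt := by
  intro G3 G1 LP γ hγ hγ1
  set k0 : ℕ := ⌈200 / γ⌉₊ with hk0
  set kk : ℕ := ⌈4 / γ⌉₊ with hkk
  have k1 : 200 ≤ γ * k0 := by
    have := Nat.le_ceil (200 / γ)
    rw [div_le_iff₀ hγ] at this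
    linarith
  have k2 : 4 ≤ γ * kk := by
    have := Nat.le_ceil (4 / γ)
    rw [div_le_iff₀ hγ] at this
    linarith
  have k3 : (2 : ℝ) ≤ k0 := by
    have : (0 : ℝ) ≤ k0 := Nat.cast_nonneg _
    nlinarith
  have k4 : 0 < kk := by
    rcases Nat.eq_zero_or_pos kk with h | h
    · rw [h] at k2; norm_num at k2
    · exact h
  have k5 : 2 ≤ k0 := by exact_mod_cast k3
  refine ⟨γ / 1000, k0, by positivity, k5, (2 : ℝ) ^ (100 / γ), ?_⟩
  intro Λ S η U hΛ hS hη hη1 hU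
  have s1 : 100 / γ ≤ lg S := by
    have := lg_mono (by positivity) hS
    rwa [lg_two_rpow] at this
  have s2 : 100 ≤ γ * lg S := by
    rw [div_le_iff₀ hγ] at s1
    linarith
  have s3 : (2 : ℝ) ≤ S := by
    refine le_trans ?_ hS
    have : (1 : ℝ) ≤ 100 / γ := by rw [le_div_iff₀ hγ]; linarith
    simpa using Real.rpow_le_rpow_of_exponent_le (x := 2) (by norm_num) this
  have s4 : 0 ≤ lg S := lg_nonneg (by linarith)
  obtain ⟨g1, hg1, LP⟩ := LP (1 / k0) Λ S η U k0 (by positivity) hΛ s3 hη hη1 hU k5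
  have LP' : ∀ g : ℕ, ∃ m : ℕ, g1 ≤ g → 1 ≤ m ∧ g ∣ m ∧ Win 22 S Λ η U k0 g m := fun g => by
    by_cases hg : g1 ≤ g
    · obtain ⟨m, hm, hgm, H⟩ := LP g hg
      refine ⟨m, fun _ => ⟨hm, hgm, fun Ω _ w d hw e1 e2 e3 e4 hd _ => ?_⟩⟩
      have a := H Ω d w hw e1 e2 e3 e4 hd (by simp)
      have b1 : 0 ≤ E w (d.ovs (d.lev d.m)) := E_nonneg hw fun o _ =>
        sum_nonneg fun i hi => ov_nonneg hd.tt (mem_range.1 hi) o
      have b2 : 0 ≤ d.fail w := sum_nonneg fun _ _ => tot_nonneg (hw.res _)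
      have b3 : (10 / (k0 : ℝ) + 1 / k0) * (k0 * m * U * (2 * lg S)) = 22 * (m * U * lg S) := by
        field_simp
        ring
      have b4 : 0 ≤ (k0 * U * lg S) * d.fail w := by positivity
      rw [b3] at a
      linarith
    · exact ⟨0, fun h => absurd h hg⟩
  choose mf hmf using LP'
  let gs : ℕ → ℕ := fun n => Nat.rec g1 (fun _ g => k0 * mf g * U) n
  have gs_succ : ∀ n, gs (n + 1) = k0 * mf (gs n) * U := fun _ => rfl
  have up : ∀ g, g1 ≤ g → g ∣ k0 * mf g * U ∧ g ≤ k0 * mf g * U := fun g hg => by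
    obtain ⟨a, b, -⟩ := hmf g hg
    have c : g ∣ k0 * mf g * U := Dvd.dvd.mul_right (Dvd.dvd.mul_left b k0) U
    exact ⟨c, Nat.le_of_dvd (by positivity) c⟩
  have low : ∀ n, g1 ≤ gs n := fun n => by
    induction n with
    | zero => exact le_rfl
    | succ n ih => exact ih.trans (up _ ih).2
  have dv : ∀ n n', n ≤ n' → gs n ∣ gs n' := fun n n' h => by
    induction n', h using Nat.le_induction with
    | base => exact dvd_rfl
    | succ j _ ih => exact ih.trans (up _ (low j)).1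
  obtain ⟨Q, hQ⟩ : ∃ Q : ℕ, Q = gs kk := ⟨_, rfl⟩
  have q1 : 1 ≤ Q := hQ ▸ hg1.trans (low kk)
  refine ⟨⌈100 * ((Q : ℕ) : ℝ) / γ⌉₊, fun L hL Ω _ c a b w hw ht eS hc h0 hN hth hmu hp hov hsl hM => ?_⟩
  subst eS
  have l1 : 100 * ((Q : ℕ) : ℝ) ≤ γ * L := by
    have := Nat.ceil_le.1 hL
    rw [div_le_iff₀ hγ] at this
    linarith
  have q2 : (1 : ℝ) ≤ Q := by exact_mod_cast q1
  have l2 : 2 * Q ≤ L := by
    have : (0 : ℝ) ≤ L := Nat.cast_nonneg _
    have : (2 * Q : ℝ) ≤ L := by nlinarith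
    exact_mod_cast this
  set L' := (L - Q) / Q * Q with hL'
  have l3 : L' + Q ≤ L := by have := Nat.div_mul_le_self (L - Q) Q; omega
  have l4 : L ≤ L' + 2 * Q := by
    have a := Nat.div_add_mod' (L - Q) Q
    have b := Nat.mod_lt (L - Q) q1
    omega
  obtain ⟨n0, hn0, tw⟩ := Tow.tower hw (fun i o => c.mkd w (pr a b) i o) gs L' kk k4
  obtain ⟨m1, m2, m3⟩ := hmf (gs n0) (low n0)
  obtain ⟨r, hr⟩ := dv (n0 + 1) kk hn0
  rw [gs_succ] at hr tw
  rw [← hQ] at hr
  set g := gs n0 with hg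
  set m := mf g with hm
  have eL : (L - Q) / Q * r * (k0 * m * U) = L' := by rw [hL']; nth_rewrite 5 [hr]; ring
  have mU : m * U ≤ Q := by
    have a1 : k0 * m * U ≤ Q := Nat.le_of_dvd q1 ⟨r, hr⟩
    have a2 : m * U ≤ k0 * (m * U) := Nat.le_mul_of_pos_left _ (by omega)
    rw [← mul_assoc] at a2
    omega
  have th0 : 0 < c.th := by
    rcases isEmpty_or_nonempty Ω with h | ⟨⟨o⟩⟩
    · simp [tot] at ht
    · rw [← hN o]
      unfold TT.N
      exact_mod_cast Nat.sub_pos_of_lt (hc.lt 0 (Nat.zero_le _) o)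
  have W := windows hw (by norm_num) hc hM (hg1.trans (low n0)) m2 m1 (by omega) hU m3
    (n := (L - Q) / Q * r) (by rw [eL]; omega) fun i j hij hj => by
      have := (G3 Ω c w Λ L i j hw hc hij hj).1 (pr a b) fun _ => True
      rw [E_res_true, E_res_true, tot_res_true, Nat.cast_sub hij] at this
      rw [E_add, E_const]
      linarith
  rw [eL] at W
  have gd : ∀ o, c.good 0 o := fun o => by
    unfold TT.good TT.thr
    rw [hN o]
    simp only [pow_zero, div_one]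
    nlinarith
  have g1' := G1 Ω c w (pr a b) Λ L hw hc gd
  have g2 : E w (fun o => ∑ i ∈ range L',
      if c.mkd w (pr a b) i o then 0 else c.gain w (pr a b) i (i + 1) o) ≤
      E w (fun o => ∑ i ∈ range L,
        if c.mkd w (pr a b) i o then 0 else c.gain w (pr a b) i (i + 1) o) :=
    E_mono hw fun o ho => sum_le_sum_of_subset_of_nonneg (range_subset_range.2 (by omega))
      fun i hi _ => by
        split_ifs
        exacts [le_rfl, gain_nonneg hw hc _ ho (Nat.le_succ i) (mem_range.1 hi)]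
  have g3 : ∑ i ∈ range L, tot (res w (c.slot i)) ≤ L * (γ / 1000 * tot w) := by
    refine (sum_le_sum fun i hi => hsl i (mem_range.1 hi)).trans_eq ?_
    rw [sum_const, card_range, nsmul_eq_mul]
  have g4 := gain_low hw ht hc (pr a b) h0 th0 (show L' ≤ L by omega) (hmu L' (by omega)) hp
  have g5 : lg c.th ≤ 2 * (L + 2) * lg c.S := by
    have a1 := lg_mono th0 hth
    rw [← pow_mul] at a1
    have : lg (c.S ^ (2 * (L + 2))) = (2 * (L + 2) : ℕ) * lg c.S := by
      unfold lg; rw [Real.logb_pow]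
    rw [this] at a1
    push_cast at a1
    exact a1
  have eL' : (((L - Q) / Q * r : ℕ) : ℝ) * (k0 * m * U) = L' := by exact_mod_cast eL
  have n1 : (L - Q) / Q * r ≤ L := by
    have a1 : (L - Q) / Q * r ≤ (L - Q) / Q * r * (k0 * m * U) :=
      Nat.le_mul_of_pos_right _ (by positivity)
    omega
  rw [eL'] at W
  refine num (ℓ := lg c.S) (L := L) (L' := L') (k := k0) (kk := kk) (Q := Q)
    (n := ((L - Q) / Q * r : ℕ)) (nm := ((L - Q) / Q * r : ℕ) * m * U)
    (g := E w (c.gain w (pr a b) 0 L')) (t := tot w) hγ hγ1 rfl k1 k2 s2 q2 l1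
    (by exact_mod_cast l4) (by exact_mod_cast (show L' ≤ L by omega)) (by exact_mod_cast n1)
    (by rw [← eL']; ring) ht ?_ ?_
  · refine le_trans (mul_le_mul_of_nonneg_right ?_ ht.le) g4
    have := mul_le_mul_of_nonneg_left g5 (show 0 ≤ 1 - (γ - γ / 1000) by linarith)
    linarith
  · have a1 := mul_le_mul_of_nonneg_left g3 (show 0 ≤ 2 * lg c.S by positivity)
    have a2 := mul_le_mul_of_nonneg_left tw (show 0 ≤ 2 * lg c.S by positivity)
    linarith

end Pool.Agent.Lib.MP_d308c3_co.K
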