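import Pool.Agent.Lib.MP_d308c3_co.K.S.NG

/-! The rows that are not marked gain little. -/

namespace Pool.Agent.Lib.MP_d308c3_co.K

open Finset Pool.Agent.Lib.MP_108739_an.F
open scoped Classical

theorem TT.Ok.unclean' {Ω : Type} {c : TT Ω} {Λ : ℝ} {L : ℕ} (h : c.Ok Λ L) {o : Ω}
    (h0 : c.good 0 o) :
    ∑ i ∈ range L, (if c.clean i o then 0 else lg (c.N i o / c.N (i + 1) o)) ≤
      5 * c.ovs L o + 2 * lg c.S * ∑ i ∈ range L, (if c.slot i o then (1 : ℝ) else 0) := by
  have h1 := h.not_good' h0 le_rfl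
  have h2 : 0 ≤ (if c.good L o then 0 else lg (c.thr L / c.N L o)) := by
    split_ifs
    · exact le_rfl
    · exact h.pot_nonneg le_rfl o
  have h3 := h.one_le_lg
  have h4 : ∑ i ∈ range L, (if c.clean i o then 0 else lg (c.N i o / c.N (i + 1) o)) ≤
      ∑ i ∈ range L, (2 * (if c.good i o then 0 else lg c.S) + 3 * c.ov i o +
        2 * lg c.S * (if c.slot i o then (1 : ℝ) else 0)) := by
    refine sum_le_sum fun i hi => ?_
    have hi' : i < L := mem_range.1 hi
    have k1 := h.lgN_step hi' o
    have k2 := h.ov_nonneg hi' o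
    have k3 : 0 ≤ (if c.good i o then 0 else lg c.S) := by split_ifs <;> linarith
    have k4 : 0 ≤ 2 * lg c.S * (if c.slot i o then (1 : ℝ) else 0) := by
      split_ifs <;> linarith
    by_cases a : c.clean i o
    · rw [if_pos a]; linarith
    rw [if_neg a]
    by_cases s : c.spl i o
    swap
    · rw [if_neg s] at k1; linarith
    rw [if_pos s] at k1
    by_cases g1 : c.good i o
    swap
    · rw [if_neg g1]; linarith
    by_cases g2 : c.good (i + 1) o
    · have sl : c.slot i o := ⟨s, g2, fun b => a ⟨g1, g2, b⟩⟩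
      rw [if_pos sl]; linarith
    · have := h.pot_ge (i := i + 1) hi' g2
      have e : c.ov i o = lg (c.thr (i + 1) / c.N (i + 1) o) := if_pos s
      linarith
  rw [sum_add_distrib, sum_add_distrib, ← mul_sum, ← mul_sum, ← mul_sum] at h4
  unfold TT.ovs at h1 ⊢
  linarith

theorem g1P : G1P := by
  intro Ω _ c w p Λ L hw h h0
  have a := sum_le_sum fun i (hi : i ∈ range L) => h.gain_row p hw (mem_range.1 hi)
  rw [sum_add_distrib, ← E_sum, sum_const, card_range, nsmul_eq_mul] at a
  have b := E_mono hw fun o _ => h.unclean' (h0 o)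
  rw [E_add, E_mul, E_mul, E_sum, E_sum] at b
  have e : ∀ i, E w (fun o => if c.slot i o then (1 : ℝ) else 0) = tot (res w (c.slot i)) :=
    fun i => E_ind _
  rw [sum_congr rfl fun i _ => e i] at b
  linarith

theorem g1 : G1St := fun _ _ => g1P

end Pool.Agent.Lib.MP_d308c3_co.K
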