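import Pool.Agent.Lib.MP_d308c3_co.K.St
import Pool.Agent.Lib.MP_d308c3_co.K.G1

/-! Gain on an event and entropy of the windows. -/

namespace Pool.Agent.Lib.MP_d308c3_co.K

open Finset Pool.Agent.Lib.MP_108739_an.F
open scoped Classical

theorem g3 : G3St := by
  intro Ω _ c w Λ L i j hw h hij hj
  have e : ((j - i : ℕ) : ℝ) * (2 * lg c.S) = 2 * ((j : ℝ) - i) * lg c.S := by
    rw [Nat.cast_sub hij]; ring
  rw [e]
  refine ⟨fun p F => h.gain_ev p hw hij hj F, ?_⟩
  have a := gibbs' hw (c.W j) (c.W i) (fun v o => ((v.2 - v.1 : ℕ) : ℝ) / c.N i o)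
    (fun v o o' e => by simp only [TT.N_congr e])
    (fun o _ => div_pos (h.N_pos hj o) (h.N_pos (hij.trans hj) o))
    (fun o _ => by
      rw [← sum_div, div_le_one (h.N_pos (hij.trans hj) o)]
      exact h.sum_vals hij hj Det.rfl o)
  rw [← E_const, ← E_add]
  refine a.trans (E_mono hw fun o _ => ?_)
  have p1 := h.N_pos (hij.trans hj) o
  have p2 := h.N_pos hj o
  have := h.lgN_le hij hj o
  change - lg (c.N j o / c.N i o) ≤ _
  rw [lg_div p1 p2] at this
  rw [lg_div p2 p1]
  linarith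

end Pool.Agent.Lib.MP_d308c3_co.K
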