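import Pool.Agent.Lib.MP_d308c3_co.K.S.NodeDef
import Pool.Agent.Lib.MP_d308c3_co.K.LxK

/-! Gluing of the long steps of the nodes of one level. -/

set_option autoImplicit false

namespace Pool.Agent.Lib.MP_d308c3_co.K

open Finset Pool.Agent.Lib.MP_108739_an.F
open scoped Classical

namespace Glu

theorem vals_ex {Ω α β : Type} [Fintype Ω] {w : Ω → ℝ} {f : Ω → α} {g : Ω → β} {o : Ω} {x : α}
    (h : x ∈ vals w f g o) : ∃ o', 0 < w o' ∧ g o' = g o ∧ f o' = x := by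
  simpa [vals, and_assoc] using h

theorem Psi_nonneg {Ω : Type} (G : Geo Ω) (g : ℝ) (q : (ℕ × ℕ) × Finset Pt) : 0 ≤ G.Psi g q := by
  unfold Geo.Psi Geo.Ph
  positivity

theorem sum_pairs {α β : Type} (A : Finset (α × β)) (J : Finset α) (K : α → Finset β)
    (f : α × β → ℝ) (hf : ∀ x, 0 ≤ f x) (h : ∀ x ∈ A, x.1 ∈ J ∧ x.2 ∈ K x.1) :
    ∑ x ∈ A, f x ≤ ∑ j ∈ J, ∑ z ∈ K j, f (j, z) := by
  rw [← sum_fiberwise_of_maps_to (g := Prod.fst) (t := J) fun x hx => (h x hx).1]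
  refine sum_le_sum fun j _ => ?_
  have e : ∑ z ∈ K j, f (j, z) = ∑ x ∈ (K j).image (Prod.mk j), f x := by
    rw [sum_image]
    intro x _ y _ e
    exact (Prod.mk.inj e).2
  rw [e]
  refine sum_le_sum_of_subset_of_nonneg (fun x hx => ?_) fun x _ _ => hf x
  obtain ⟨a, b⟩ := mem_filter.1 hx
  exact mem_image.2 ⟨x.2, b ▸ (h x a).2, by rw [← b]⟩

theorem res_congr {Ω : Type} [Fintype Ω] (w : Ω → ℝ) {A B : Ω → Prop} (h : ∀ o, A o ↔ B o) :
    tot (res w A) = tot (res w B) := by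
  rw [show A = B from funext fun o => propext (h o)]

theorem tot_nodes {Ω κ : Type} [Fintype Ω] (w : Ω → ℝ) (nd : Ω → κ) (A : Ω → Prop) :
    tot (res w A) = ∑ v ∈ univ.image nd, tot (res w fun o => nd o = v ∧ A o) := by
  unfold tot res
  rw [sum_comm]
  refine sum_congr rfl fun o _ => ?_
  rw [sum_eq_single_of_mem (nd o) (mem_image_of_mem _ (mem_univ o))]
  · simp
  · intro v _ hv
    rw [if_neg fun e => hv e.1.symm]

theorem core {Ω : Type} [Fintype Ω] {c : TT Ω} {G : Geo Ω} {Λ g Ct sb S η : ℝ} {L i u U : ℕ}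
    {Y : Ω → Finset Pt} (hc : c.Ok Λ L) (hU : i + U ≤ L) (hY : G.Node c i Y)
    (H : ∀ o, ∃ cs bad lb pa, NodeOut c G i u U g S η Ct sb (c.W i o) (Y o) cs bad lb pa) :
    ∃ (Y' : Ω → Finset Pt) (lab : Ω → Option (ℕ × ℤ)) (par : ℕ × ℤ → Ω → Prop) (bad : Ω → Prop),
      G.Node c (i + U) Y' ∧ (∀ o, Y' o ⊆ Y o) ∧
      (∀ o, (#(vals (one Ω) Y' (pr (pr (c.W i) Y) (c.W (i + U))) o) : ℝ) ≤ S ^ (2 * U)) ∧
      LabOk (one Ω) (fun o => (G.pt o).1) (fun o => (G.pt o).2) (fun o => c.tau (c.lo i o))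
        (c.len i) S η (pr (c.W i) Y) (pr (c.W (i + U)) Y') lab par ∧
      Det (pr (c.W (i + U)) Y') bad ∧
      (∀ o, ∑ q ∈ vals (one Ω) (pr (c.W (i + U)) Y') (pr (c.W i) Y) o, G.Psi g q ≤
        Ct * G.Psi g (pr (c.W i) Y o)) ∧
      (∀ o, ∑ q ∈ vals (res (one Ω) bad) (pr (c.W (i + U)) Y') (pr (c.W i) Y) o,
        G.Psi g q ≤ sb * G.Psi g (pr (c.W i) Y o)) ∧
      tot (res (one Ω) fun o => lab o = none) ≤
        tot (res (one Ω) fun o => ∃ k ∈ Ico i (i + u), ¬ c.clean k o) +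
          3 * tot (res (one Ω) bad) + 10 / S * tot (one Ω) := by
  set nd := pr (c.W i) Y with hnd
  have H' : ∀ v : (ℕ × ℕ) × Finset Pt, ∃ cs bad lb pa, (∃ o, nd o = v) →
      NodeOut c G i u U g S η Ct sb v.1 v.2 cs bad lb pa := by
    intro v
    by_cases h : ∃ o, nd o = v
    · obtain ⟨o, rfl⟩ := h
      obtain ⟨cs, bad, lb, pa, k⟩ := H o
      exact ⟨cs, bad, lb, pa, fun _ => k⟩
    · exact ⟨fun _ _ => ∅, fun _ _ => False, fun _ => none, fun _ _ => False, fun e => absurd e h⟩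
  choose cs bd lb pa K using H'
  have K' : ∀ o, NodeOut c G i u U g S η Ct sb (c.W i o) (Y o) (cs (nd o)) (bd (nd o)) (lb (nd o))
      (pa (nd o)) := fun o => K (nd o) ⟨o, rfl⟩
  have ndi : ∀ o o', nd o' = nd o ↔ InN c G i (c.W i o) (Y o) o' := by
    intro o o'
    constructor
    · intro e
      have e1 : c.W i o' = c.W i o := congrArg Prod.fst e
      have e2 : Y o' = Y o := congrArg Prod.snd e
      exact ⟨e1, e2 ▸ (hY.1 o').1⟩
    · rintro ⟨e1, e2⟩
      exact Prod.ext e1 (hY.2 o o' e1 e2)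
  set Y' : Ω → Finset Pt := fun o => cs (nd o) (c.W (i + U) o) (G.pt o) with hY'
  have sub : ∀ o, Y' o ⊆ Y o := fun o => (K' o).sub _ _
  have self : ∀ o, G.pt o ∈ Y' o := fun o => (K' o).self _ _ (hY.1 o).1
  have back : ∀ o o', c.W (i + U) o' = c.W (i + U) o → G.pt o' ∈ Y' o → nd o' = nd o :=
    fun o o' e h => (ndi o o').2 ⟨LxK.W_det hc (Nat.le_add_right i U) hU e, sub o h⟩
  have back' : ∀ o o', pr (c.W (i + U)) Y' o' = pr (c.W (i + U)) Y' o → nd o' = nd o := by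
    intro o o' e
    have e2 : Y' o' = Y' o := congrArg Prod.snd e
    exact back o o' (congrArg Prod.fst e) (e2 ▸ self o')
  have msn : ∀ o, ms (one Ω) nd o = tot (res (one Ω) (InN c G i (c.W i o) (Y o))) := by
    intro o
    rw [← res_congr _ (ndi o)]
    unfold ms tot res
    congr
  have kid : ∀ o o', nd o' = nd o → c.W (i + U) o' ∈ kids c i (i + U) (c.W i o) :=
    fun o o' e => mem_image_of_mem _ (mem_filter.2 ⟨mem_univ _, ((ndi o o').1 e).1⟩)
  refine ⟨Y', fun o => lb (nd o) (G.pt o), fun l o => pa (nd o) l (G.pt o),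
    fun o => bd (nd o) (c.W (i + U) o) (Y' o), ⟨fun o => ⟨self o, (sub o).trans (hY.1 o).2⟩, ?_⟩,
    sub, ?_, ⟨?_, ?_, ?_, ?_, ?_, ?_⟩, ?_, ?_, ?_, ?_⟩
  · intro o o' e h
    simp only [hY']
    rw [back o o' e h, e]
    exact (K' o).part _ _ _ h
  · intro o
    refine le_trans (Nat.cast_le.2 (card_le_card fun Z hZ => ?_)) ((K' o).ncell (c.W (i + U) o))
    obtain ⟨o', -, e, rfl⟩ := vals_ex hZ
    have e1 : nd o' = nd o := congrArg Prod.fst e
    have e2 : c.W (i + U) o' = c.W (i + U) o := congrArg Prod.snd e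
    refine mem_image.2 ⟨G.pt o', ((ndi o o').1 e1).2, ?_⟩
    simp only [hY', e1, e2]
  · exact fun o l h => (K' o).idx _ l h
  · intro o l _ h
    rw [msn]
    refine ((K' o).m1 _ l h).trans_eq (res_congr _ fun o' => ?_)
    rw [← ndi]
    exact and_congr_right fun e => by simp only [e]
  · intro o l _ h
    rw [msn]
    refine ((K' o).m2 _ l h).trans_eq (res_congr _ fun o' => ?_)
    rw [← ndi]
    exact and_congr_right fun e => by simp only [e]
  · intro o l o' h e p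
    exact (K' o).sep _ l _ h (by rw [← e]; exact p)
  · rintro o l o1 o2 h ⟨e1, f1⟩ ⟨e2, f2⟩
    simp only [e1, e2] at f1 f2
    exact (K' o).ball _ l _ _ h f1 f2
  · rintro o l o1 o2 h ⟨e1, f1⟩ e
    simp only [e1] at f1
    have e2 : Y' o2 = Y' o1 := congrArg Prod.snd e
    have m : G.pt o2 ∈ cs (nd o) (c.W (i + U) o1) (G.pt o1) := by
      have := self o2
      rw [e2] at this
      simpa only [hY', e1] using this
    exact (K' o).prog _ l _ _ h f1 _ m
  · intro o o' e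
    have e1 : c.W (i + U) o = c.W (i + U) o' := congrArg Prod.fst e
    have e2 : Y' o = Y' o' := congrArg Prod.snd e
    simp only [back' o' o e, e1, e2]
  · intro o
    refine le_trans (sum_pairs _ _ _ _ (Psi_nonneg G g) fun x hx => ?_) (K' o).share
    obtain ⟨o', -, e, rfl⟩ := vals_ex hx
    refine ⟨kid o o' e, mem_image.2 ⟨G.pt o', ((ndi o o').1 e).2, ?_⟩⟩
    simp only [hY', pr, e]
  · intro o
    refine le_trans (sum_pairs _ _ _ _ (Psi_nonneg G g) fun x hx => ?_) (K' o).badshare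
    obtain ⟨o', b, e, rfl⟩ := vals_ex hx
    refine ⟨kid o o' e, mem_filter.2 ⟨mem_image.2 ⟨G.pt o', ((ndi o o').1 e).2, ?_⟩, ?_⟩⟩
    · simp only [hY', pr, e]
    · by_contra hb
      rw [res, if_neg (by rw [e]; exact hb)] at b
      exact lt_irrefl _ b
  · have t1 : tot (one Ω) = tot (res (one Ω) fun _ => True) := by simp [tot, res]
    rw [t1, tot_nodes _ nd, tot_nodes _ nd fun o => ∃ k ∈ Ico i (i + u), ¬ c.clean k o,
      tot_nodes _ nd fun o => bd (nd o) (c.W (i + U) o) (Y' o), tot_nodes _ nd fun _ => True,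
      mul_sum, mul_sum, ← sum_add_distrib, ← sum_add_distrib]
    refine sum_le_sum fun v hv => ?_
    obtain ⟨o, rfl⟩ : ∃ o, nd o = v := by simpa using hv
    refine le_trans (le_of_eq (res_congr _ fun o' => ?_)) ((K' o).miss.trans (le_of_eq ?_))
    · rw [← ndi]
      exact and_congr_right fun e => by simp only [e]
    · congr 2
      · exact res_congr _ fun o' => by rw [ndi]
      · refine congrArg _ (res_congr _ fun o' => ?_)
        rw [← ndi]
        exact and_congr_right fun e => by simp only [hY', e]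
      · exact res_congr _ fun o' => by rw [ndi, and_true]

end Glu

theorem glue : GlueSt := by
  intro h γ h0 h1
  obtain ⟨cu, h⟩ := h γ h0 h1
  refine ⟨cu, fun Λ hΛ => ?_⟩
  obtain ⟨u, U, a1, a2, a3, h⟩ := h Λ hΛ
  refine ⟨u, U, a1, a2, a3, fun ε C0 b1 b2 b3 => ?_⟩
  obtain ⟨Ct, S0, d1, h⟩ := h ε C0 b1 b2 b3
  refine ⟨Ct, S0, d1, fun S hS => ?_⟩
  obtain ⟨η, e1, e2, h⟩ := h S hS
  refine ⟨η, e1, e2, fun Ω _ c G L i Y f1 f2 f3 f4 f5 f6 => ?_⟩
  exact Glu.core f2 f5 f6 fun o =>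
    h Ω c G L i (c.W i o) (Y o) f1 f2 f3 f4 f5 (f6.1 o).2 ⟨o, rfl, (f6.1 o).1⟩

end Pool.Agent.Lib.MP_d308c3_co.K
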