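import Pool.Agent.Lib.MP_d308c3_co.K.St
import Pool.Agent.Lib.MP_d308c3_co.K.Fib

/-! The code length of the nodes. -/

namespace Pool.Agent.Lib.MP_d308c3_co.K

open Finset Pool.Agent.Lib.MP_108739_an.F
open scoped Classical

theorem hnd : HndSt := fun g3 Ω _ d w Λ η F hw h => by
  refine ⟨fun c hc => Fib.nd_det h hc le_rfl, ?_⟩
  have hE := hw.res F
  suffices k : ∀ n ≤ d.m, H (res w F) (d.nd n) (d.nd 0) ≤ 4 * n * d.U * lg d.S * tot (res w F) +
      E (res w F) (fun o => ∑ k ∈ Ico d.Gr (d.lev n), d.ov k o) from k _ le_rfl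
  intro n hn
  induction n with
  | zero =>
    have h1 : H (res w F) (d.nd 0) (d.nd 0) ≤ lg 1 * tot (res w F) :=
      H_le_card hE le_rfl fun o _ => by
        have : vals (res w F) (d.nd 0) (d.nd 0) o ⊆ {d.nd 0 o} := fun v hv => by
          obtain ⟨o', -, e, rfl⟩ := mem_vals.1 hv
          exact mem_singleton.2 e
        exact_mod_cast (card_le_card this).trans (card_singleton _).le
    simpa [lg_one, Loc.lev, E] using h1
  | succ n ih =>
    have h1 := ih (by omega)
    have h2 := H_tri hE (d.nd (n + 1)) (d.nd n) (d.nd 0)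
    have h3 := H_tri hE (d.nd (n + 1)) (d.W (d.lev (n + 1))) (pr (d.nd n) (d.nd 0))
    have e : d.lev (n + 1) - d.lev n = d.U := by
      unfold Loc.lev; rw [add_mul, one_mul]; omega
    have h4 : H (res w F) (d.W (d.lev (n + 1))) (pr (d.nd n) (d.nd 0)) ≤
        H (res w F) (d.W (d.lev (n + 1))) (d.W (d.lev n)) :=
      H_mono hE Det.fst (Det.fst.trans Det.fst)
    have h5 := (g3 Ω d.toTT (res w F) Λ _ _ _ hE h.tt (Fib.lev_mono d (Nat.le_succ n))
      (Fib.lev_mono d hn)).2
    rw [e] at h5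
    have h6 : H (res w F) (d.nd (n + 1)) (pr (d.W (d.lev (n + 1))) (pr (d.nd n) (d.nd 0))) ≤
        H (res w F) (d.Y (n + 1)) (pr (d.nd n) (d.W (d.lev (n + 1)))) :=
      H_mono hE (Det.pr (Det.snd.trans Det.fst) Det.fst) (Det.pr (Det.snd.trans Det.fst) Det.fst)
    have hS := h.tt.two
    have h7 : H (res w F) (d.Y (n + 1)) (pr (d.nd n) (d.W (d.lev (n + 1)))) ≤
        lg (d.S ^ (2 * d.U)) * tot (res w F) :=
      H_le_card hE (one_le_pow₀ (by linarith)) fun o ho =>
        le_trans (Nat.cast_le.2 (card_le_card fun v hv => by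
          obtain ⟨o', a, b, c⟩ := mem_vals.1 hv
          exact mem_vals.2 ⟨o', (res_pos a).2, b, c⟩)) (h.cells n hn o (res_pos ho).2)
    have h8 : lg (d.S ^ (2 * d.U)) = 2 * d.U * lg d.S := by simp [lg, Real.logb_pow]
    have h9 : E (res w F) (fun o => ∑ k ∈ Ico d.Gr (d.lev (n + 1)), d.ov k o) =
        E (res w F) (fun o => ∑ k ∈ Ico d.Gr (d.lev n), d.ov k o) +
        E (res w F) (fun o => ∑ k ∈ Ico (d.lev n) (d.lev (n + 1)), d.ov k o) := by
      rw [← E_add]
      exact congrArg _ (funext fun o => (sum_Ico_consecutive _ (Nat.le_add_right _ _)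
        (Fib.lev_mono d (Nat.le_succ n))).symm)
    rw [h8] at h7
    rw [h9]
    push_cast
    linarith

end Pool.Agent.Lib.MP_d308c3_co.K
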