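import Pool.Agent.Lib.MP_d308c3_co.K.LocB
import Pool.Agent.Lib.MP_d308c3_co.K.LocNum

/-! The window lemma. -/

set_option autoImplicit false

namespace Pool.Agent.Lib.MP_d308c3_co.K

theorem loc : LocSt := fun g3 hnd row col _ _ _ _ _ _ path => locA locNum g3 hnd row col path

end Pool.Agent.Lib.MP_d308c3_co.K
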