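import Pool.Agent.Lib.MP_d308c3_co.K.St
import Pool.Agent.Lib.MP_d308c3_co.K.Fib

/-! From one root node to all root nodes. -/

namespace Pool.Agent.Lib.MP_d308c3_co.K

theorem locG : LocGSt := fun H δ Λ S η U k0 a1 a2 a3 a4 a5 a6 a7 => by
  obtain ⟨g1, b1, H⟩ := H δ Λ S η U k0 a1 a2 a3 a4 a5 a6 a7
  refine ⟨g1, b1, fun g hg => ?_⟩
  obtain ⟨m, c1, c2, H⟩ := H g hg
  refine ⟨m, c1, c2, fun Ω _ d w hw e1 e2 e3 e4 h _ => ?_⟩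
  have b : d.Gr ≤ d.lev d.m := Nat.le_add_right _ _
  exact Fib.of_roots hw h ((Nat.div_mul_le_self _ g).trans b) b _ _ _ _ _
    fun w' h1 h2 h3 => H Ω d w' h1 e1 e2 e3 e4 h2 fun _ => h3

end Pool.Agent.Lib.MP_d308c3_co.K
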