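import Pool.Agent.Lib.MP_d308c3_co.K.St
import Pool.Agent.Lib.MP_d308c3_co.K.TrC

/-! The tree of nodes with periodic cutting steps: constants. -/

namespace Pool.Agent.Lib.MP_d308c3_co.K

open Finset Pool.Agent.Lib.MP_108739_an.F Pool.Agent.Lib.MP_d308c3_co.Wl
open scoped Classical

/-- choice of the slot parameter -/
theorem Tr.ex_Lt (cu δ : ℝ) (hδ : 0 < δ) : ∃ Lt : ℕ, 1 ≤ Lt ∧ 2 / (Lt : ℝ) ≤ δ ∧
    ∀ u : ℝ, u ≤ cu * √(96 * (Lt : ℝ)) → u * (2 / Lt) ≤ δ / 2 := by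
  obtain ⟨n, hn⟩ := exists_nat_ge (max (2 / δ) (40 * |cu| / δ))
  have h1 : 2 / δ ≤ n := (le_max_left _ _).trans hn
  have h2 : 40 * |cu| / δ ≤ n := (le_max_right _ _).trans hn
  have h3 : (0 : ℝ) < n := lt_of_lt_of_le (by positivity) h1
  have h4 : 1 ≤ n := by exact_mod_cast h3
  have h5 : (1 : ℝ) ≤ n := by exact_mod_cast h4
  rw [div_le_iff₀ hδ] at h1 h2
  refine ⟨n * n, Nat.mul_pos h4 h4, ?_, fun u hu => ?_⟩
  · push_cast
    rw [div_le_iff₀ (by positivity)]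
    nlinarith [mul_pos h3 hδ]
  · push_cast at hu ⊢
    have h6 : √(96 * ((n : ℝ) * n)) ≤ 10 * n := by
      refine Real.sqrt_le_iff.2 ⟨by positivity, ?_⟩
      nlinarith [mul_pos h3 h3]
    have h7 : u ≤ |cu| * (10 * n) :=
      hu.trans ((mul_le_mul_of_nonneg_right (le_abs_self cu) (Real.sqrt_nonneg _)).trans
        (mul_le_mul_of_nonneg_left h6 (abs_nonneg _)))
    rw [← mul_div_assoc, div_le_iff₀ (by positivity)]
    nlinarith [mul_le_mul_of_nonneg_right h2 h3.le]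

theorem mac : MacSt := by
  intro step ng γ δ hγ hγ1 hδ k0 hk0
  obtain ⟨cu, hcu⟩ := step γ hγ hγ1
  obtain ⟨Lt, hLt, hLδ, hLu⟩ := Tr.ex_Lt cu δ hδ
  have hLt' : (1 : ℝ) ≤ Lt := by exact_mod_cast hLt
  obtain ⟨u, U, hu1, huU, hu, hst⟩ := hcu (96 * Lt) (by linarith)
  have hU : 1 ≤ U := hu1.trans huU
  have hU0 : (0 : ℝ) < U := by exact_mod_cast hU
  have hk : (0 : ℝ) < k0 := by exact_mod_cast (by omega : 0 < k0)
  refine ⟨Lt, U, δ / 4 / (k0 * U), min 1 (δ * γ / (432 * (k0 * U))), hLt, hLδ, hU, by positivity,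
    lt_min one_pos (by positivity), fun ε C0 hε hε0 hC0 => ?_⟩
  have hε1 : ε ≤ 1 := hε0.trans (min_le_left _ _)
  have hε2 : ε ≤ δ * γ / (432 * (k0 * U)) := hε0.trans (min_le_right _ _)
  obtain ⟨Ct0, S1, hCt0, hS1⟩ := hst ε C0 hε hε1 hC0
  set Ct := max Ct0 (C0 * 8 ^ (γ + ε) / (1 - 2 ^ (-ε))) with hCt
  have hCt1 : 1 ≤ Ct := hCt0.trans (le_max_left _ _)
  have hlC : 0 ≤ lg Ct := lg_nonneg hCt1
  have hlC2 : 0 ≤ lg (2 * Ct) := lg_nonneg (by linarith)
  refine ⟨max S1 (max (20 / δ) ((2 : ℝ) ^ (24 * k0 * (lg Ct + lg (2 * Ct)) / (δ * γ)))),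
    fun S hS => ?_⟩
  have hSa : S1 ≤ S := (le_max_left _ _).trans hS
  have hSb : 20 / δ ≤ S := (le_max_left _ _).trans ((le_max_right _ _).trans hS)
  have hSc : (2 : ℝ) ^ (24 * k0 * (lg Ct + lg (2 * Ct)) / (δ * γ)) ≤ S :=
    (le_max_right _ _).trans ((le_max_right _ _).trans hS)
  have hSd : 24 * k0 * (lg Ct + lg (2 * Ct)) / (δ * γ) ≤ lg S := by
    rw [← lg_two_rpow (24 * k0 * (lg Ct + lg (2 * Ct)) / (δ * γ))]
    exact lg_mono (by positivity) hSc
  obtain ⟨η, hη, hη1, hstep⟩ := hS1 S hSa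
  refine ⟨η, hη, hη1, fun Ω _ c G L M hcS hth hM h hG h0 hP hbig hov hsl => ?_⟩
  rcases lt_or_ge L U with hLU | hLU
  · intro m n hm hL
    have := Nat.mul_le_mul_right U hm
    omega
  subst hcS
  have hS2 := h.two
  have hS0 : 0 < c.S := by linarith
  have hlS : 0 < lg c.S := Real.logb_pos one_lt_two (by linarith)
  have hM0 : (0 : ℝ) < M := hth ▸ h.t_th_pos
  have hsb : 0 < c.S ^ (-(γ / 2)) := Real.rpow_pos_of_pos hS0 _
  have hsb1 : c.S ^ (-(γ / 2)) < 1 :=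
    Real.rpow_lt_one_of_one_lt_of_neg (by linarith) (by linarith)
  have hN0 : ∀ o, c.N 0 o = M := fun o => by
    have e1 : c.lo 0 o = 0 := congrArg Prod.fst (h0 o)
    have e2 : c.hi 0 o = M := congrArg Prod.snd (h0 o)
    unfold TT.N
    rw [e1, e2, Nat.sub_zero]
  have e2 : γ + 2 * ε = γ + ε + ε := by ring
  refine Tr.macH_of_step (g := γ + ε) (C := C0) (ε := ε) (Ct := Ct) (sb := c.S ^ (-(γ / 2)))
    (δ' := 10 / c.S) (sl := 2 / Lt) (u := u) h hG huU hU (by omega) (by linarith) (by linarith) hε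
    (fun Y hY => (hP Y hY).comp hG.mono.monotone) (le_max_right _ _) hsb (by linarith)
    (fun i Y hi hY => ?_) (fun o o' => (h0 o).trans (h0 o').symm) (fun o => ng Ω c _ L o h ?_) hsl
    ?_ ?_ (fun o => ?_) hCt1 hδ.le
  · obtain ⟨Y', lab, par, bad, a1, a2, a3, a4, -, a6, a7, a8⟩ := hstep Ω c G L i Y rfl h hG hP hi hY
    refine ⟨Y', lab, par, bad, a1, a2, a3, a4, fun o => ?_, fun o => ?_, a8⟩
    · rw [← Tr.vals_one, ← e2]
      exact (a6 o).trans (mul_le_mul_of_nonneg_right (le_max_left _ _) (G.t_Psi_nonneg _ _))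
    · rw [← Tr.vals_res, ← e2]
      exact a7 o
  · unfold TT.good TT.thr
    rw [hN0, hth, pow_zero, div_one]
    nlinarith
  · have a1 := hLu u hu
    have a2 : 10 / c.S ≤ δ / 2 := by
      rw [div_le_iff₀ hδ] at hSb
      rw [div_le_iff₀ hS0]
      linarith
    linarith
  · refine hov.trans (le_of_eq ?_)
    change _ = _ * tot (one Ω)
    ring
  · have hT : 0 < tot (one Ω) := by
      have := single_le_sum (f := one Ω) (fun _ _ => zero_le_one) (mem_univ o)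
      exact lt_of_lt_of_le one_pos this
    have hL1 : (1 : ℝ) ≤ L := by exact_mod_cast hU.trans hLU
    have hLU' : (1 : ℝ) ≤ L / U := by
      rw [le_div_iff₀ hU0, one_mul]; exact_mod_cast hLU
    have hlM : lg M ≤ (L + 2) * (2 * lg c.S) := by
      refine (lg_mono hM0 hM).trans (le_of_eq ?_)
      unfold lg
      rw [Real.logb_pow, Real.logb_pow]; push_cast; ring
    have hlM0 : 0 ≤ lg M := by
      refine lg_nonneg ?_
      have : 0 < M := by exact_mod_cast hM0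
      exact_mod_cast this
    have b1 : lg (Ct * G.Psi (γ + ε + ε) (c.W 0 o, G.x.X) / tot (one Ω)) ≤
        lg Ct + 3 * ε * lg M := by
      have p0 : G.Psi (γ + ε + ε) (c.W 0 o, G.x.X) = G.Ph G.x.X 0 M * (M : ℝ) ^ (γ + ε + ε) := by
        rw [h0 o]; rfl
      rcases (G.t_Ph_nonneg G.x.X 0 M).eq_or_lt with z | z
      · rw [p0, ← z, zero_mul, mul_zero, zero_div]
        have : lg 0 = 0 := by simp [lg]
        rw [this]; positivity
      · have p1 : (M : ℝ) ^ (γ + ε + ε) = (M : ℝ) ^ (3 * ε) * (M : ℝ) ^ (γ - ε) := by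
          rw [← Real.rpow_add hM0]; congr 1; ring
        have p2 : 0 < (M : ℝ) ^ (3 * ε) := Real.rpow_pos_of_pos hM0 _
        have p3 : 0 < (M : ℝ) ^ (γ - ε) := Real.rpow_pos_of_pos hM0 _
        have p4 : lg ((M : ℝ) ^ (3 * ε)) = 3 * ε * lg M := Real.logb_rpow_eq_mul_logb_of_pos hM0
        rw [← p4, ← lg_mul (by linarith) p2, p0, p1]
        refine lg_mono (by positivity) ?_
        rw [div_le_iff₀ hT]
        have := mul_le_mul_of_nonneg_left hbig (show 0 ≤ Ct * (M : ℝ) ^ (3 * ε) by positivity)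
        refine le_trans (le_of_eq ?_) this
        ring
    have b2 : γ / 2 * lg c.S ≤ lg (Ct / c.S ^ (-(γ / 2))) := by
      have p4 : lg (c.S ^ (-(γ / 2))) = -(γ / 2) * lg c.S := Real.logb_rpow_eq_mul_logb_of_pos hS0
      rw [lg_div (by linarith) hsb, p4]
      linarith
    have b3 : 3 * (3 * ε * lg M) ≤ δ * γ / 8 * (L / (k0 * U)) * lg c.S := by
      have q1 : lg M ≤ 6 * (L * lg c.S) := by nlinarith
      have q2 : ε * lg M ≤ δ * γ / (432 * (k0 * U)) * (6 * (L * lg c.S)) :=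
        mul_le_mul hε2 q1 hlM0 (by positivity)
      have q3 : δ * γ / 8 * (L / (k0 * U)) * lg c.S =
          9 * (δ * γ / (432 * (k0 * U)) * (6 * (L * lg c.S))) := by
        field_simp; ring
      rw [q3]; linarith
    have b4 : 3 * (lg Ct + L / U * lg (2 * Ct)) ≤ δ * γ / 8 * (L / (k0 * U)) * lg c.S := by
      rw [div_le_iff₀ (by positivity)] at hSd
      have q1 : lg Ct ≤ L / U * lg Ct := le_mul_of_one_le_left hlC hLU'
      have q2 := mul_le_mul_of_nonneg_left hSd (show (0 : ℝ) ≤ L / U / (8 * k0) by positivity)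
      have q3 : (L : ℝ) / U / (8 * k0) * (24 * k0 * (lg Ct + lg (2 * Ct))) =
          3 * (L / U * lg Ct + L / U * lg (2 * Ct)) := by
        field_simp; ring
      have q4 : (L : ℝ) / U / (8 * k0) * (lg c.S * (δ * γ)) =
          δ * γ / 8 * (L / (k0 * U)) * lg c.S := by
        field_simp
      rw [q3, q4] at q2
      linarith
    have b5 := mul_le_mul_of_nonneg_left b2 (show 0 ≤ δ / 2 * L / (k0 * U) by positivity)
    have b6 : δ / 2 * L / (k0 * U) * (γ / 2 * lg c.S) =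
        2 * (δ * γ / 8 * (L / (k0 * U)) * lg c.S) := by ring
    change 3 * (lg (Ct * G.Psi (γ + ε + ε) (c.W 0 o, G.x.X) / tot (one Ω)) + _) ≤ _
    linarith

end Pool.Agent.Lib.MP_d308c3_co.K
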