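import Pool.Agent.Lib.MP_d308c3_co.K.St
import Pool.Agent.Lib.MP_d308c3_co.K.G1

/-! Levels that are not good are paid by overshoots. -/

namespace Pool.Agent.Lib.MP_d308c3_co.K

open Finset Pool.Agent.Lib.MP_108739_an.F
open scoped Classical

theorem TT.Ok.good_spl {Ω : Type} {c : TT Ω} {Λ : ℝ} {L : ℕ} (h : c.Ok Λ L) {i : ℕ} {o : Ω}
    (hc : c.good i o) : c.spl i o := by
  by_contra hn
  have h1 : c.N i o ≤ c.thr (i + 1) := not_lt.1 hn
  have h2 : c.thr i ≤ c.S * c.N i o := hc
  have h3 := h.thr_succ i
  have h4 := h.thr_pos (i + 1)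
  have h5 := h.two
  have h6 : c.S * c.N i o ≤ c.S * c.thr (i + 1) := mul_le_mul_of_nonneg_left h1 h.S_pos.le
  nlinarith [mul_pos (mul_pos h.S_pos h4) (show 0 < c.S - 1 by linarith)]

theorem TT.Ok.not_good' {Ω : Type} {c : TT Ω} {Λ : ℝ} {L : ℕ} (h : c.Ok Λ L) {o : Ω}
    (h0 : c.good 0 o) {n : ℕ} (hn : n ≤ L) :
    ∑ i ∈ range n, (if c.good i o then 0 else lg c.S) +
      (if c.good n o then 0 else lg (c.thr n / c.N n o)) ≤ c.ovs n o := by
  induction n with
  | zero => simp [TT.ovs, h0]
  | succ n ih =>
    have h1 := ih (by omega)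
    have h3 := h.one_le_lg
    unfold TT.ovs at h1 ⊢
    rw [sum_range_succ, sum_range_succ]
    have h2 : (if c.good n o then 0 else lg c.S) +
        (if c.good (n + 1) o then 0 else lg (c.thr (n + 1) / c.N (n + 1) o)) ≤
        (if c.good n o then 0 else lg (c.thr n / c.N n o)) + c.ov n o := by
      have k1 := h.pot_nonneg hn o
      unfold TT.ov
      by_cases a : c.spl n o
      · rw [if_pos a]
        by_cases b : c.good n o
        · rw [if_pos b, if_pos b]
          split_ifs <;> linarith
        · have := h.pot_ge (i := n) (by omega) b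
          rw [if_neg b, if_neg b]
          split_ifs <;> linarith
      · have b : ¬ c.good n o := fun b => a (h.good_spl b)
        have p := h.N_pos (i := n) (by omega) o
        have k2 := h.pot_ge (i := n) (by omega) b
        have k3 := h.lg_thr n
        rw [if_neg a, if_neg b, if_neg b]
        split_ifs
        · linarith
        · rw [TT.N_congr (h.idle n hn o a), lg_div (h.thr_pos _) p, lg_div (h.thr_pos _) p]
          linarith
    linarith

theorem ng : NGSt := by
  intro Ω c Λ L o h h0
  have h1 := h.not_good' h0 le_rfl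
  have h2 : (if c.good L o then 0 else lg c.S) ≤
      (if c.good L o then 0 else lg (c.thr L / c.N L o)) := by
    split_ifs with b
    · exact le_rfl
    · exact h.pot_ge le_rfl b
  have h3 : (#((range (L + 1)).filter fun i => ¬ c.good i o) : ℝ) * lg c.S =
      ∑ i ∈ range (L + 1), (if c.good i o then 0 else lg c.S) := by
    rw [← nsmul_eq_mul, ← sum_const, sum_filter]
    exact sum_congr rfl fun i _ => by by_cases b : c.good i o <;> simp [b]
  rw [h3, sum_range_succ]
  linarith

end Pool.Agent.Lib.MP_d308c3_co.K
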