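import Pool.Agent.Lib.MP_d308c3_co.K.St
import Pool.Agent.Lib.MP_d308c3_co.K.LxK2

/-! Input of the macro step at one node of the time tree, and the numerical choices. -/

set_option autoImplicit false

namespace Pool.Agent.Lib.MP_d308c3_co.K.StepIn

open Finset Cut LxK Pool.Agent.Lib.MP_108739_an.F
open scoped Classical

theorem step_par {γ : ℝ} (h0 : 0 < γ) : ∃ cu : ℝ, ∀ Λ : ℝ, 1 ≤ Λ → ∃ ell l1 g1 g2 U : ℕ,
    Λ ≤ 2 ^ ell ∧ 64 * Λ ≤ 2 ^ g1 ∧ 1 ≤ g2 ∧ 17 ≤ γ * (2 * g2 - 1) ∧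
    3 * ((g1 + g2 : ℕ) : ℝ) + 17 ≤ γ * (2 * ((l1 + g1 + g2 : ℕ) : ℝ) - 1) ∧
    ((2 * (l1 + g1 + g2) + 14 : ℕ) : ℝ) ≤ γ * (2 * U - 1) ∧ l1 + g1 + g2 ≤ U ∧
    ((l1 + g1 + g2 : ℕ) : ℝ) ≤ cu * √Λ := by
  obtain ⟨k, hk⟩ : ∃ k : ℕ, 1 ≤ γ * k := ⟨⌈1 / γ⌉₊, by
    have := Nat.le_ceil (1 / γ)
    rwa [div_le_iff₀' h0] at this⟩
  have k1 : 1 ≤ k := by
    rcases Nat.eq_zero_or_pos k with rfl | h
    · norm_num at hk
    · exact h
  refine ⟨k * (27 * k + 50), fun Λ hΛ => ?_⟩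
  obtain ⟨n, n1, n2⟩ : ∃ n : ℕ, √Λ ≤ n ∧ (n : ℝ) ≤ 2 * √Λ := ⟨⌈√Λ⌉₊, Nat.le_ceil _, by
    have := Nat.ceil_lt_add_one (Real.sqrt_nonneg Λ)
    have := Real.one_le_sqrt.2 hΛ
    linarith⟩
  have s1 : 1 ≤ √Λ := Real.one_le_sqrt.2 hΛ
  have e1 : Λ ≤ 2 ^ (2 * n) := by
    have a : √Λ ≤ 2 ^ n := n1.trans (by exact_mod_cast Nat.lt_two_pow_self.le)
    calc Λ = √Λ ^ 2 := (Real.sq_sqrt (by linarith)).symm
      _ ≤ (2 ^ n) ^ 2 := pow_le_pow_left₀ (by linarith) a 2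
      _ = 2 ^ (2 * n) := by rw [← pow_mul, mul_comm]
  obtain ⟨l1, hl⟩ : ∃ l1, l1 + (2 * n + 6) + (9 * k + 1) = k * (3 * (2 * n + 6 + (9 * k + 1)) + 17) :=
    ⟨k * (3 * (2 * n + 6 + (9 * k + 1)) + 17) - (2 * n + 6 + (9 * k + 1)), by
      have := Nat.le_mul_of_pos_left (3 * (2 * n + 6 + (9 * k + 1)) + 17) k1
      omega⟩
  have key : ∀ a : ℕ, 1 ≤ a → (a : ℝ) ≤ γ * (2 * ((k * a : ℕ) : ℝ) - 1) := by
    intro a ha
    have a1 : (1 : ℝ) ≤ a := by exact_mod_cast ha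
    have a2 : (1 : ℝ) ≤ k := by exact_mod_cast k1
    have a3 : (1 : ℝ) ≤ k * a := by nlinarith
    push_cast
    nlinarith
  have kr : (1 : ℝ) ≤ k := by exact_mod_cast k1
  refine ⟨2 * n, l1, 2 * n + 6, 9 * k + 1, k * (2 * (l1 + (2 * n + 6) + (9 * k + 1)) + 14), e1, ?_,
    by omega, ?_, ?_, key _ (by omega), ?_, ?_⟩
  · rw [pow_add]
    linarith
  · push_cast
    nlinarith
  · rw [hl]
    exact le_trans (by push_cast; linarith) (key _ (by omega))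
  · have := Nat.le_mul_of_pos_left (2 * (l1 + (2 * n + 6) + (9 * k + 1)) + 14) k1
    omega
  · rw [hl]
    push_cast
    rw [mul_assoc]
    refine mul_le_mul_of_nonneg_left ?_ (by linarith)
    nlinarith

/-- the right hand sides of `Mac.MacOut` are small -/
structure NumOut (γ ε C0 S η Ct Φ n th1 th2 σ : ℝ) (U cJ rq : ℕ) : Prop where
  cell : 2 * (S ^ 2 + 2) * (S ^ 2 + 1) * (513 / η + 1) ≤ S ^ (2 * U)
  share : C0 * 8 ^ (γ + ε) / (1 - 2 ^ (-ε)) * Φ * n ^ (γ + ε + ε)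
      + th2 ^ (γ + ε + ε) * ((5 + 4 * S ^ 2 + 1026 / η) * Φ + 2 * S ^ 2 * σ)
    ≤ Ct * (Φ * n ^ (γ + 2 * ε))
  bad : 3 * (th2 ^ (γ + ε + ε) * ((5 + 4 * S ^ 2 + 1026 / η) * Φ + 2 * S ^ 2 * σ))
      + 5 * (C0 * 8 ^ (γ + ε) / (1 - 2 ^ (-ε))) * Φ * (n / S) ^ (γ + ε + ε)
      + S ^ 2 * (C0 * 8 ^ (γ + ε) / (1 - 2 ^ (-ε)) * th1 ^ (γ + ε + ε) * (Φ + 2 * σ))
    ≤ S ^ (-(γ / 2)) * (Φ * n ^ (γ + 2 * ε))
  miss : 8 * S / S ^ 2 + η * (2 * S ^ 2 * cJ * rq) ≤ 10 / S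

theorem C1_pos {γ ε C0 : ℝ} (hε : 0 < ε) (hC : 1 ≤ C0) : 0 < C0 * 8 ^ (γ + ε) / (1 - 2 ^ (-ε)) := by
  have : (2 : ℝ) ^ (-ε) < 1 := Real.rpow_lt_one_of_one_lt_of_neg (by norm_num) (by linarith)
  exact div_pos (by positivity) (by linarith)

theorem num_out {γ ε C0 S Φ n th1 th2 σ : ℝ} {u U cJ rq : ℕ} (h0 : 0 < γ) (h1 : γ ≤ 1) (hε : 0 < ε)
    (hC : 1 ≤ C0) (hS : 4112 ≤ S)
    (hS2 : 3 + 8 * (C0 * 8 ^ (γ + ε) / (1 - 2 ^ (-ε))) ≤ S ^ (γ / 2))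
    (hU : 2 * u + 14 ≤ 2 * U) (hΦ : 0 ≤ Φ) (hn : 0 ≤ n) (hσ : 0 ≤ σ) (t2 : 0 ≤ th2) (t12 : th2 ≤ th1)
    (a1 : th1 ^ (γ + ε + ε) ≤ 1 / S ^ 17 * n ^ (γ + ε + ε))
    (a2 : th2 ^ (γ + ε + ε) ≤ 1 / S ^ (2 * u + 14) * n ^ (γ + ε + ε))
    (a3 : th1 ^ (γ + ε + ε) * σ ≤ 1 / S ^ 7 * (Φ * n ^ (γ + ε + ε)))
    (hJ : (cJ : ℝ) ≤ S ^ (2 * u + 1)) (hq : (rq : ℝ) ≤ S ^ 5) :
    NumOut γ ε C0 S (1 / S ^ (2 * u + 9)) (C0 * 8 ^ (γ + ε) / (1 - 2 ^ (-ε)) + 1) Φ n th1 th2 σ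
      U cJ rq := by
  have c1 := C1_pos (γ := γ) hε hC
  set C1 := C0 * 8 ^ (γ + ε) / (1 - 2 ^ (-ε)) with hC1
  have s0 : 0 < S := by linarith
  have s1 : 1 ≤ S := by linarith
  have eg : γ + 2 * ε = γ + ε + ε := by ring
  have g0 : 0 ≤ γ + ε + ε := by linarith
  set g := γ + ε + ε with hg
  have p1 : S ^ 2 ≤ S ^ (2 * u + 9) := pow_le_pow_right₀ s1 (by omega)
  have p2 : 4 ≤ S ^ 2 := by nlinarith
  have p3 : 0 ≤ n ^ g := Real.rpow_nonneg hn _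
  set Ψ := Φ * n ^ g with hΨ
  have p4 : 0 ≤ Ψ := mul_nonneg hΦ p3
  have hA : th2 ^ g * ((5 + 4 * S ^ 2 + 1026 / (1 / S ^ (2 * u + 9))) * Φ + 2 * S ^ 2 * σ)
      ≤ 1 / S ^ 4 * Ψ := by
    have b1 : 5 + 4 * S ^ 2 + 1026 / (1 / S ^ (2 * u + 9)) ≤ 1035 * S ^ (2 * u + 9) := by
      rw [div_div_eq_mul_div, div_one]
      linarith
    have b2 : th2 ^ g * ((5 + 4 * S ^ 2 + 1026 / (1 / S ^ (2 * u + 9))) * Φ) ≤ 1035 / S ^ 5 * Ψ := by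
      refine (mul_le_mul a2 (mul_le_mul_of_nonneg_right b1 hΦ) (by positivity) (by positivity)).trans_eq ?_
      rw [hΨ, show 2 * u + 14 = 2 * u + 9 + 5 by ring, pow_add S (2 * u + 9) 5]
      field_simp
    have b3 : th2 ^ g * σ ≤ 1 / S ^ 7 * Ψ :=
      (mul_le_mul_of_nonneg_right (Real.rpow_le_rpow t2 t12 g0) hσ).trans a3
    have b4 : th2 ^ g * (2 * S ^ 2 * σ) ≤ 2 / S ^ 5 * Ψ := by
      calc _ = 2 * S ^ 2 * (th2 ^ g * σ) := by ring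
        _ ≤ 2 * S ^ 2 * (1 / S ^ 7 * Ψ) := mul_le_mul_of_nonneg_left b3 (by positivity)
        _ = _ := by field_simp
    have b5 : 1037 / S ^ 5 ≤ 1 / S ^ 4 := by
      rw [div_le_div_iff₀ (by positivity) (by positivity), show S ^ 5 = S * S ^ 4 by ring, one_mul]
      exact mul_le_mul_of_nonneg_right (by linarith) (by positivity)
    have b6 := mul_le_mul_of_nonneg_right b5 p4
    rw [mul_add]
    calc _ ≤ 1035 / S ^ 5 * Ψ + 2 / S ^ 5 * Ψ := add_le_add b2 b4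
      _ = 1037 / S ^ 5 * Ψ := by ring
      _ ≤ _ := b6
  have q1 : ∀ k : ℕ, 1 ≤ k → 1 / S ^ k ≤ S ^ (-γ) := by
    intro k hk
    rw [one_div, ← Real.rpow_natCast, ← Real.rpow_neg s0.le]
    have : (1 : ℝ) ≤ k := by exact_mod_cast hk
    exact Real.rpow_le_rpow_of_exponent_le s1 (by linarith)
  refine ⟨?_, ?_, ?_, ?_⟩
  · rw [div_div_eq_mul_div, div_one]
    calc _ ≤ 2 * (2 * S ^ 2) * (2 * S ^ 2) * (514 * S ^ (2 * u + 9)) := by gcongr <;> linarith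
      _ = 4112 * S ^ (2 * u + 13) := by ring
      _ ≤ S * S ^ (2 * u + 13) := by gcongr
      _ = S ^ (2 * u + 14) := by ring
      _ ≤ _ := pow_le_pow_right₀ s1 hU
  · rw [eg, ← hC1, ← hg, add_mul C1, one_mul, mul_assoc C1]
    refine add_le_add le_rfl (hA.trans (mul_le_of_le_one_left p4 ?_))
    rw [div_le_one (by positivity)]
    exact one_le_pow₀ s1
  · rw [eg, ← hC1, ← hg]
    have d1 : (n / S) ^ g ≤ S ^ (-γ) * n ^ g := by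
      rw [Real.div_rpow hn s0.le, div_eq_inv_mul, ← Real.rpow_neg s0.le]
      exact mul_le_mul_of_nonneg_right (Real.rpow_le_rpow_of_exponent_le s1 (by linarith)) p3
    have d2 : 5 * C1 * Φ * (n / S) ^ g ≤ 5 * C1 * (S ^ (-γ) * Ψ) := by
      calc _ ≤ 5 * C1 * Φ * (S ^ (-γ) * n ^ g) := mul_le_mul_of_nonneg_left d1 (by positivity)
        _ = _ := by rw [hΨ]; ring
    have d3 : S ^ 2 * (th1 ^ g * Φ) ≤ S ^ (-γ) * Ψ := by
      calc _ ≤ S ^ 2 * (1 / S ^ 17 * n ^ g * Φ) := by gcongr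
        _ = 1 / S ^ 15 * Ψ := by rw [hΨ]; field_simp
        _ ≤ _ := mul_le_mul_of_nonneg_right (q1 15 (by norm_num)) p4
    have d4 : S ^ 2 * (th1 ^ g * σ) ≤ S ^ (-γ) * Ψ := by
      calc _ ≤ S ^ 2 * (1 / S ^ 7 * Ψ) := by gcongr
        _ = 1 / S ^ 5 * Ψ := by field_simp
        _ ≤ _ := mul_le_mul_of_nonneg_right (q1 5 (by norm_num)) p4
    have d5 := hA.trans (mul_le_mul_of_nonneg_right (q1 4 (by norm_num)) p4)
    have d6 : S ^ 2 * (C1 * th1 ^ g * (Φ + 2 * σ)) ≤ 3 * C1 * (S ^ (-γ) * Ψ) := by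
      calc _ = C1 * (S ^ 2 * (th1 ^ g * Φ) + 2 * (S ^ 2 * (th1 ^ g * σ))) := by ring
        _ ≤ C1 * (3 * (S ^ (-γ) * Ψ)) := mul_le_mul_of_nonneg_left (by linarith) c1.le
        _ = _ := by ring
    have d7 : S ^ (γ / 2) * S ^ (-γ) = S ^ (-(γ / 2)) := by
      rw [← Real.rpow_add s0]
      congr 1
      ring
    have d8 : 0 ≤ S ^ (-γ) * Ψ := by positivity
    calc _ ≤ (3 + 8 * C1) * (S ^ (-γ) * Ψ) := by linarith
      _ ≤ S ^ (γ / 2) * (S ^ (-γ) * Ψ) := mul_le_mul_of_nonneg_right hS2 d8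
      _ = _ := by rw [← mul_assoc, d7]
  · calc _ ≤ 8 * S / S ^ 2 + 1 / S ^ (2 * u + 9) * (2 * S ^ 2 * S ^ (2 * u + 1) * S ^ 5) := by gcongr
      _ = 10 / S := by
        rw [show 2 * u + 9 = 2 * u + 1 + 8 by ring, pow_add S (2 * u + 1) 8]
        field_simp
        norm_num

variable {Ω : Type} [Fintype Ω] {c : TT Ω} {G : Geo Ω} {Λ : ℝ} {L : ℕ}

/-- the level `i + U` windows below `q` -/
noncomputable def J2 (c : TT Ω) (i U : ℕ) (q : ℕ × ℕ) : Finset (ℕ × ℕ) :=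
  (univ.filter fun o => c.W i o = q).image (c.W (i + U))

/-- number of items with the level `k` window `j` and the point `p` -/
noncomputable def om (c : TT Ω) (G : Geo Ω) (k : ℕ) (j : ℕ × ℕ) (p : Pt) : ℝ :=
  tot (res (one Ω) fun o => c.W k o = j ∧ G.pt o = p)

theorem mem_J2 (h : c.Ok Λ L) {i U : ℕ} (hU : i + U ≤ L) {q : ℕ × ℕ} {o : Ω} :
    c.W (i + U) o ∈ J2 c i U q ↔ c.W i o = q := by
  refine ⟨fun k => ?_, fun k => mem_image_of_mem _ (mem_filter.2 ⟨mem_univ _, k⟩)⟩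
  obtain ⟨o', k', e⟩ := mem_image.1 k
  exact (W_det h (Nat.le_add_right i U) hU e).symm.trans (mem_filter.1 k').2

omit [Fintype Ω] in
theorem dis_img (h : c.Ok Λ L) {i k : ℕ} (hik : i ≤ k) (hk : k ≤ L) (q : ℕ × ℕ) {J : Finset (ℕ × ℕ)}
    (hJ : ∀ j ∈ J, ∃ o, c.W k o = j ∧ c.W i o = q) : Ex.Dis J Prod.fst Prod.snd q.1 q.2 := by
  refine ⟨fun d hd => ?_, fun d hd => ?_, fun d hd => ?_, fun d hd d' hd' e => ?_⟩
  · obtain ⟨o, rfl, -⟩ := hJ d hd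
    exact h.lt _ hk o
  · obtain ⟨o, rfl, rfl⟩ := hJ d hd
    exact (nest_le h hik hk o).1
  · obtain ⟨o, rfl, rfl⟩ := hJ d hd
    exact (nest_le h hik hk o).2
  · obtain ⟨o, rfl, -⟩ := hJ d hd
    obtain ⟨o', rfl, -⟩ := hJ d' hd'
    exact (h.lami _ hk o o').resolve_left e

theorem ex_J2 {i U : ℕ} {q j : ℕ × ℕ} (hj : j ∈ J2 c i U q) : ∃ o, c.W (i + U) o = j ∧ c.W i o = q := by
  obtain ⟨o, k, e⟩ := mem_image.1 hj
  exact ⟨o, e, (mem_filter.1 k).2⟩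

theorem dis_J2 (h : c.Ok Λ L) {i U : ℕ} (hU : i + U ≤ L) (q : ℕ × ℕ) :
    Ex.Dis (J2 c i U q) Prod.fst Prod.snd q.1 q.2 :=
  dis_img h (Nat.le_add_right i U) hU q fun _ => ex_J2

theorem dis_comp {ι : Type} {J : Finset ι} {l r : ι → ℕ} {a b : ℕ} (h : Ex.Dis J l r a b)
    {s : ℕ → ℕ} (hs : StrictMono s) : Ex.Dis J (fun j => s (l j)) (fun j => s (r j)) (s a) (s b) :=
  ⟨fun j hj => hs (h.lt j hj), fun j hj => hs.monotone (h.lo_le j hj),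
    fun j hj => hs.monotone (h.le_hi j hj), fun j hj k hk e =>
      (h.dis j hj k hk e).imp (fun x => hs.monotone x) fun x => hs.monotone x⟩

theorem om_nonneg (k : ℕ) (j : ℕ × ℕ) (p : Pt) : 0 ≤ om c G k j p :=
  sum_nonneg fun _ _ => by unfold res one; split_ifs <;> norm_num

/-- sums of `om` are item counts -/
theorem sum_om (k : ℕ) (J : Finset (ℕ × ℕ)) (X : Finset Pt) (P : ℕ × ℕ → Pt → Prop) :
    (∑ p ∈ X, ∑ j ∈ J, if P j p then om c G k j p else 0) =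
      tot (res (one Ω) fun o => c.W k o ∈ J ∧ G.pt o ∈ X ∧ P (c.W k o) (G.pt o)) := by
  have e : ∀ p j, (if P j p then om c G k j p else 0) =
      ∑ o, if G.pt o = p then (if c.W k o = j then (if P j p then (1 : ℝ) else 0) else 0) else 0 := by
    intro p j
    unfold om tot res one
    split_ifs with hP
    · refine sum_congr rfl fun o _ => ?_
      by_cases a : G.pt o = p <;> by_cases b : c.W k o = j <;> simp [a, b]
    · simp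
  simp only [e]
  rw [sum_congr rfl fun p _ => sum_comm, sum_comm]
  unfold tot res one
  refine sum_congr rfl fun o _ => ?_
  simp only [← ite_sum_zero, sum_ite_eq]
  by_cases a : G.pt o ∈ X <;> by_cases b : c.W k o ∈ J <;> simp [a, b]

theorem sum_om' (k : ℕ) (J : Finset (ℕ × ℕ)) (X : Finset Pt) :
    ∑ p ∈ X, ∑ j ∈ J, om c G k j p = tot (res (one Ω) fun o => c.W k o ∈ J ∧ G.pt o ∈ X) := by
  simpa using sum_om (c := c) (G := G) k J X fun _ _ => True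

/-- (LY) for the time split of a node -/
theorem share_time (h : c.Ok Λ L) (hG : G.Ok c L) {γ ε C0 : ℝ} (h0 : 0 < γ) (hε : 0 < ε) (hC : 1 ≤ C0)
    (hP : G.x.PWs (γ + ε) C0) {i U : ℕ} (hU : i + U ≤ L) (q : ℕ × ℕ) {Y : Finset Pt}
    (hY : Y ⊆ G.x.X) : ∑ j ∈ J2 c i U q, G.Psi (γ + 2 * ε) (j, Y) ≤
      C0 * 8 ^ (γ + ε) / (1 - 2 ^ (-ε)) * G.Psi (γ + 2 * ε) (q, Y) := by
  have a := ((hP Y hY).comp hG.mono.monotone).ly_len (fun _ _ => Nat.cast_nonneg _) (by linarith)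
    (by linarith) (dis_J2 h hU q) hε
  rw [show γ + ε + ε = γ + 2 * ε by ring, mul_assoc] at a
  exact a

theorem mac_in (h : c.Ok Λ L) (hG : G.Ok c L) {γ ε C0 η σ : ℝ} (h0 : 0 < γ) (hε : 0 < ε)
    (hC : 1 ≤ C0) (hη : 0 < η) (hP : G.x.PWs (γ + ε) C0) {i u U rq : ℕ} (hu : u ≤ U)
    (hU : i + U ≤ L) (o0 : Ω) {Y : Finset Pt} (hY : Y ⊆ G.x.X) (hp : G.pt o0 ∈ Y)
    (lx : ∀ x, ∃ P1 P2 Rest Q, Mac.LXout G.x.U Y Prod.fst (JJ c i u (c.W i o0)) (fun j => G.s j.1)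
      (fun j => G.s j.2) x rq σ P1 P2 Rest Q) :
    Mac.MacIn Prod.fst Prod.snd G.x.t G.x.m Y (G.s (c.lo i o0)) (G.s (c.hi i o0)) (γ + ε) ε C0
      (J2 c i U (c.W i o0)) (fun j => G.s j.1) (fun j => G.s j.2) (JJ c i u (c.W i o0))
      (fun j => G.s j.1) (fun j => G.s j.2) (anc c i U u) (fun j => ((j.2 - j.1 : ℕ) : ℝ))
      (c.N i o0) (c.thr (i + u)) (c.thr (i + U)) rq σ (om c G (i + U)) (c.S ^ 2) c.S η := by
  have h2 := h.two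
  have hD := dis_J2 h hU (c.W i o0)
  have hi : i ≤ L := by omega
  refine ⟨fun _ _ _ a _ => G.x.mono.monotone a, G.x.mono (hG.mono (h.lt i hi o0)),
    fun p _ q _ a b => Prod.ext a b, by linarith, hε, by linarith, fun Z hZ => hP Z (hZ.trans hY),
    ⟨dis_comp hD hG.mono, dis_JJ h (by omega) _ hG.mono, fun j hj _ => ?_⟩, fun j hj => ?_,
    fun j hj => ?_, ?_, fun j1 hj1 => ?_, (thr_pos h _).le, (thr_pos h _).le,
    zero_lt_one.trans_le (one_le_N h hi o0), lx, fun j _ p _ => om_nonneg _ _ _,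
    fun j hj p hpY e => ?_, ?_, by nlinarith, by linarith, hη⟩
  · obtain ⟨o, rfl, -⟩ := ex_J2 hj
    rw [anc_eq h hU hu]
    have := nest_le h (show i + u ≤ i + U by omega) hU o
    exact ⟨hG.mono.monotone this.1, hG.mono.monotone this.2⟩
  · exact_mod_cast Nat.sub_pos_of_lt (hD.lt j hj)
  · obtain ⟨o, rfl, -⟩ := ex_J2 hj
    exact h.size _ hU o
  · rw [← Nat.cast_sum]
    exact Nat.cast_le.2 hD.sum_len
  · obtain ⟨o1, -, rfl⟩ := mem_image.1 hj1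
    refine le_trans ?_ (h.size (i + u) (by omega) o1)
    rw [← Nat.cast_sum]
    refine Nat.cast_le.2 (dis_img h (show i + u ≤ i + U by omega) hU (c.W (i + u) o1)
      fun j hj => ?_).sum_len
    simp only [mem_filter] at hj
    obtain ⟨a, b⟩ := hj
    obtain ⟨o, rfl, -⟩ := ex_J2 a
    exact ⟨o, rfl, (anc_eq h hU hu o).symm.trans b⟩
  · obtain ⟨o, -, ho⟩ := exists_ne_zero_of_sum_ne_zero e
    have k : c.W (i + U) o = j ∧ G.pt o = p := by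
      by_contra k
      exact ho (if_neg k)
    obtain ⟨rfl, rfl⟩ := k
    obtain ⟨-, k, l, a1, a2, a3, a4, a5⟩ := mem_Ch.1 (hG.mem o)
    have w := hG.win (i + U) hU o
    have b1 : G.s (c.lo (i + U) o) ≤ G.s (G.atm o) := hG.mono.monotone w.1
    have b2 : G.s (G.atm o + 1) ≤ G.s (c.hi (i + U) o) := hG.mono.monotone w.2
    exact mem_Ch.2 ⟨hpY, k, l, b1.trans a1, a2.trans b2, b1.trans a3, a4.trans b2, a5⟩
  · rw [sum_om']
    refine lt_of_lt_of_le ?_ (single_le_sum (f := res (one Ω) _)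
      (fun _ _ => by unfold res one; split_ifs <;> norm_num) (mem_univ o0))
    unfold res one
    rw [if_pos ⟨(mem_J2 h hU).2 rfl, hp⟩]
    exact one_pos

/-- everything the macro step needs at a good node, with the quantifiers of `StepSt` -/
theorem node_in {γ : ℝ} (h0 : 0 < γ) (h1 : γ ≤ 1) : ∃ cu : ℝ, ∀ Λ : ℝ, 1 ≤ Λ → ∃ u U : ℕ, 1 ≤ u ∧
    u ≤ U ∧ (u : ℝ) ≤ cu * √Λ ∧ ∀ ε C0 : ℝ, 0 < ε → 1 ≤ C0 → ∃ S0 : ℝ, ∀ S : ℝ, S0 ≤ S →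
    ∃ η : ℝ, 0 < η ∧ η ≤ 1 ∧ η ≤ 1 / (2 * S ^ 2) ∧ 1 ≤ S ∧
    ∀ (Ω : Type) [Fintype Ω] (c : TT Ω) (G : Geo Ω) (L i : ℕ), c.S = S → c.Ok Λ L → G.Ok c L →
      G.x.PWs (γ + ε) C0 → i + U ≤ L → ∀ (o0 : Ω) (Y : Finset Pt), Y ⊆ G.x.X → G.pt o0 ∈ Y →
      c.good i o0 → ∃ (rq : ℕ) (σ : ℝ),
      Mac.MacIn Prod.fst Prod.snd G.x.t G.x.m Y (G.s (c.lo i o0)) (G.s (c.hi i o0)) (γ + ε) ε C0
        (J2 c i U (c.W i o0)) (fun j => G.s j.1) (fun j => G.s j.2) (JJ c i u (c.W i o0))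
        (fun j => G.s j.1) (fun j => G.s j.2) (anc c i U u) (fun j => ((j.2 - j.1 : ℕ) : ℝ))
        (c.N i o0) (c.thr (i + u)) (c.thr (i + U)) rq σ (om c G (i + U)) (S ^ 2) S η ∧
      NumOut γ ε C0 S η (C0 * 8 ^ (γ + ε) / (1 - 2 ^ (-ε)) + 1) (G.Ph Y (c.lo i o0) (c.hi i o0))
        (c.N i o0) (c.thr (i + u)) (c.thr (i + U)) σ U #(JJ c i u (c.W i o0)) rq := by
  obtain ⟨cu, hcu⟩ := step_par h0
  refine ⟨cu, fun Λ hΛ => ?_⟩
  obtain ⟨ell, l1, g1, g2, U, e1, e2, e3, e4, e5, e6, e7, e8⟩ := hcu Λ hΛ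
  refine ⟨l1 + g1 + g2, U, by omega, e7, e8, fun ε C0 hε hC => ?_⟩
  have c1 := C1_pos (γ := γ) hε hC
  obtain ⟨S1, hS1⟩ := sLX_small (g := γ + ε + ε) (u := l1 + g1 + g2) ell h0 (by linarith) c1.le
    (show l1 ≤ _ by omega) e4 e5
  obtain ⟨S2, hS2⟩ := Filter.eventually_atTop.1 ((tendsto_rpow_atTop (half_pos h0)).eventually_ge_atTop
    (3 + 8 * (C0 * 8 ^ (γ + ε) / (1 - 2 ^ (-ε)))))
  refine ⟨max 4112 (max S1 S2), fun S hS => ?_⟩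
  have s1 : 4112 ≤ S := (le_max_left _ _).trans hS
  have s2 := hS2 S (((le_max_right _ _).trans (le_max_right _ _)).trans hS)
  obtain ⟨Bl, b1, b2, b3⟩ := hS1 S (((le_max_left _ _).trans (le_max_right _ _)).trans hS)
  have s3 : 1 ≤ S := by linarith
  have s4 : 2 * S ^ 2 ≤ S ^ (2 * (l1 + g1 + g2) + 9) := by
    calc 2 * S ^ 2 ≤ S * S ^ 2 := by gcongr; linarith
      _ = S ^ 3 := by ring
      _ ≤ _ := pow_le_pow_right₀ s3 (by omega)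
  refine ⟨1 / S ^ (2 * (l1 + g1 + g2) + 9), by positivity, ?_,
    one_div_le_one_div_of_le (by positivity) s4, s3, ?_⟩
  · rw [div_le_one (by positivity)]
    exact one_le_pow₀ s3
  intro Ω _ c G L i hc h hG hP hU o0 Y hY hp hg
  subst hc
  have hu : i + (l1 + g1 + g2) ≤ L := by omega
  have hN : 0 ≤ c.N i o0 := Nat.cast_nonneg _
  have hF : 0 ≤ G.Ph Y (c.lo i o0) (c.hi i o0) := Nat.cast_nonneg _
  have g0 : 0 ≤ γ + ε + ε := by linarith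
  have wt : ∀ k n : ℕ, (n : ℝ) ≤ γ * (2 * k - 1) →
      c.thr (i + k) ^ (γ + ε + ε) ≤ 1 / c.S ^ n * c.N i o0 ^ (γ + ε + ε) := by
    intro k n hn
    refine le_trans ?_ (mul_le_mul_of_nonneg_right (rpow_small (g := γ + ε + ε) s3 h0 (by linarith) hn)
      (Real.rpow_nonneg hN _))
    rw [← Real.mul_rpow (by positivity) hN]
    refine Real.rpow_le_rpow (thr_pos h _).le ?_ g0
    rw [div_mul_eq_mul_div, le_div_iff₀ (by positivity), thr_add h]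
    exact hg
  refine ⟨_, _, mac_in h hG h0 hε hC (by positivity) hP e7 hU o0 hY hp fun x =>
    lxout h hG hΛ e1 hu e2 e3 b1 hY (by linarith) (by linarith) hε (hP Y hY) (c.W i o0) x, ?_⟩
  have hU2 : 2 * (l1 + g1 + g2) + 14 ≤ 2 * U := by
    have a : γ * (2 * U - 1) ≤ 2 * U := by
      have : (1 : ℝ) ≤ U := by exact_mod_cast (show 1 ≤ U by omega)
      nlinarith
    exact_mod_cast e6.trans a
  have tp := thr_pos h (i + (l1 + g1))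
  refine num_out h0 h1 hε hC s1 s2 hU2 hF hN (mul_nonneg (by unfold sig; positivity) hF)
    (thr_pos h _).le (thr_anti h (by omega)) (wt _ 17 ?_) (wt U _ e6) ?_ (card_JJ h hu _) b3
  · have : (0 : ℝ) ≤ ((g1 + g2 : ℕ) : ℝ) := Nat.cast_nonneg _
    rw [Nat.cast_ofNat]
    linarith
  · rw [← mul_assoc, mul_comm (G.Ph Y _ _), ← mul_assoc]
    exact mul_le_mul_of_nonneg_right ((sig_weight h Bl g0 hg).trans
      (mul_le_mul_of_nonneg_right b2 (Real.rpow_nonneg hN _))) hF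

end Pool.Agent.Lib.MP_d308c3_co.K.StepIn
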