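import Pool.Agent.Lib.MP_d308c3_co.K.S.NodeA
import Pool.Agent.Lib.MP_d308c3_co.K.S.StepIn

/-! The macro step for one node. -/

namespace Pool.Agent.Lib.MP_d308c3_co.K

open Finset Pool.Agent.Lib.MP_108739_an.F
open scoped Classical

theorem node : NodeP := by
  intro γ h0 h1
  obtain ⟨cu, hcu⟩ := StepIn.node_in h0 h1
  refine ⟨cu, fun Λ hΛ => ?_⟩
  obtain ⟨u, U, u1, uU, uc, H⟩ := hcu Λ hΛ
  refine ⟨u, U, u1, uU, uc, fun ε C0 hε _ hC => ?_⟩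
  obtain ⟨S0, H⟩ := H ε C0 hε hC
  have c1 := StepIn.C1_pos (γ := γ) hε hC
  refine ⟨C0 * 8 ^ (γ + ε) / (1 - 2 ^ (-ε)) + 1, S0, by linarith, fun S hS => ?_⟩
  obtain ⟨η, e0, e1, e2, s1, H⟩ := H S hS
  refine ⟨η, e0, e1, fun Ω _ c G L i q Y0 hc h hG hP hU hY ho => ?_⟩
  obtain ⟨o0, rfl, hp⟩ := ho
  by_cases hg : c.good i o0
  · obtain ⟨rq, σ, hin, hn⟩ := H Ω c G L i hc h hG hP hU o0 Y0 hY hp hg
    obtain ⟨cs, bad, Act, X1, X2, M, Z, hZ, hA⟩ := Mac.macro_step2 hin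
    obtain ⟨lb, pa, k⟩ := nodeOut_of_mac (q := c.W i o0) (g' := γ + 2 * ε) h hG hU uU M hZ hA (by ring)
      hn.cell hn.share hn.bad hn.miss e2
    exact ⟨cs, bad, lb, pa, k⟩
  · refine ⟨_, _, _, _, nodeOut_triv u1 s1 (Real.rpow_nonneg (by linarith) _)
      (fun o e x => hg (LxK.good_congr e x)) ?_⟩
    refine (StepIn.share_time h hG h0 hε hC hP hU _ hY).trans (mul_le_mul_of_nonneg_right (by linarith) ?_)
    exact mul_nonneg (Nat.cast_nonneg _) (Real.rpow_nonneg (Nat.cast_nonneg _) _)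

end Pool.Agent.Lib.MP_d308c3_co.K
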