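import Pool.Agent.Lib.MP_d308c3_co.K.S.NodeDef
import Pool.Agent.Lib.MP_d308c3_co.K.LxK2
import Pool.Agent.Lib.MP_d308c3_co.Mac.Step

/-! From the output of the raw macro step to `NodeOut`. -/

namespace Pool.Agent.Lib.MP_d308c3_co.K

open Finset Pool.Agent.Lib.MP_108739_an.F
open scoped Classical

variable {Ω : Type} [Fintype Ω] {c : TT Ω} {G : Geo Ω} {Λ : ℝ} {L i u U : ℕ} {q : ℕ × ℕ}
  {Y0 : Finset Pt}

theorem mem_kids (h : c.Ok Λ L) {k : ℕ} (hik : i ≤ k) (hk : k ≤ L) (o : Ω) :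
    c.W k o ∈ kids c i k q ↔ c.W i o = q := by
  refine ⟨fun x => ?_, fun x => mem_image_of_mem _ (mem_filter.2 ⟨mem_univ _, x⟩)⟩
  obtain ⟨o', y, e⟩ := mem_image.1 x
  exact (LxK.W_det h hik hk e).symm.trans (mem_filter.1 y).2

/-- masses on pairs (window, point) are masses of items -/
theorem mass_eq (h : c.Ok Λ L) {k : ℕ} (hik : i ≤ k) (hk : k ≤ L) (P : ℕ × ℕ → Pt → Prop)
    {inst : ∀ j p, Decidable (P j p)} :
    (∑ p ∈ Y0, ∑ j ∈ kids c i k q,
      if P j p then tot (res (one Ω) fun o => c.W k o = j ∧ G.pt o = p) else 0)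
      = tot (res (one Ω) fun o => InN c G i q Y0 o ∧ P (c.W k o) (G.pt o)) := by
  have e : ∀ p j, (if P j p then tot (res (one Ω) fun o => c.W k o = j ∧ G.pt o = p) else 0)
      = ∑ o, if c.W k o = j then (if G.pt o = p then (if P j p then (1 : ℝ) else 0) else 0) else 0 := by
    intro p j
    unfold tot res one
    split_ifs with x
    · exact sum_congr rfl fun o _ => by by_cases y : c.W k o = j <;> by_cases z : G.pt o = p <;> simp [y, z]
    · simp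
  simp only [e]
  rw [sum_congr rfl fun p _ => sum_comm, sum_comm]
  unfold tot res one
  refine sum_congr rfl fun o _ => ?_
  simp only [sum_ite_eq, mem_kids h hik hk, InN]
  by_cases x : c.W i o = q
  · simp only [x, if_true, sum_ite_eq, true_and]
    by_cases y : G.pt o ∈ Y0 <;> by_cases z : P (c.W k o) (G.pt o) <;> simp [y, z]
  · simp [x]

theorem mass_sub (h : c.Ok Λ L) {k : ℕ} (hik : i ≤ k) (hk : k ≤ L) {X : Finset Pt} (hX : X ⊆ Y0) :
    (∑ p ∈ X, ∑ j ∈ kids c i k q, tot (res (one Ω) fun o => c.W k o = j ∧ G.pt o = p))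
      = tot (res (one Ω) fun o => InN c G i q Y0 o ∧ G.pt o ∈ X) := by
  rw [← mass_eq h hik hk (fun _ p => p ∈ X) (inst := fun _ _ => inferInstance),
    ← sum_subset hX fun p _ hp => by simp [hp]]
  exact sum_congr rfl fun p hp => by simp [hp]

theorem mass_tot (h : c.Ok Λ L) {k : ℕ} (hik : i ≤ k) (hk : k ≤ L) :
    (∑ p ∈ Y0, ∑ j ∈ kids c i k q, tot (res (one Ω) fun o => c.W k o = j ∧ G.pt o = p))
      = tot (res (one Ω) (InN c G i q Y0)) := by
  rw [mass_sub h hik hk Subset.rfl]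
  congr 2
  funext o
  exact propext ⟨fun x => x.1, fun x => ⟨x, x.2⟩⟩

theorem tot_one_le3 {A B C D : Ω → Prop} (h : ∀ o, A o → B o ∨ C o ∨ D o) :
    tot (res (one Ω) A) ≤ tot (res (one Ω) B) + tot (res (one Ω) C) + tot (res (one Ω) D) := by
  unfold tot res one
  rw [← sum_add_distrib, ← sum_add_distrib]
  refine sum_le_sum fun o _ => ?_
  have := h o
  split_ifs <;> first | (exfalso; tauto) | norm_num

theorem tot_one_mono {A B : Ω → Prop} (h : ∀ o, A o → B o) :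
    tot (res (one Ω) A) ≤ tot (res (one Ω) B) := by
  unfold tot res one
  refine sum_le_sum fun o _ => ?_
  have := h o
  by_cases a : A o <;> by_cases b : B o <;> simp_all

theorem tot_one_nn (A : Ω → Prop) : 0 ≤ tot (res (one Ω) A) :=
  sum_nonneg fun o _ => by unfold res one; split_ifs <;> norm_num

/-- numbering of the labels whose core lies in `Z` -/
theorem ex_enc {I : Type} (Z : Finset I) : ∃ ix : Mac.Lab I → ℕ, (∀ l, l.1 ∈ Z → ix l < 2 * Z.card) ∧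
    ∀ l l', l.1 ∈ Z → l'.1 ∈ Z → ix l = ix l' → l.2.2 = l'.2.2 → l = l' := by
  refine ⟨fun l => if h : l.1 ∈ Z then 2 * (Z.equivFin ⟨l.1, h⟩ : ℕ) + (if l.2.1 then 1 else 0) else 0,
    fun l h => ?_, fun l l' h h' e e' => ?_⟩
  · have := (Z.equivFin ⟨l.1, h⟩).2
    simp only [h, dif_pos]
    split_ifs <;> omega
  · simp only [h, h', dif_pos] at e
    obtain ⟨z, s, k⟩ := l
    obtain ⟨z', s', k'⟩ := l'
    have e1 : (Z.equivFin ⟨z, h⟩ : ℕ) = Z.equivFin ⟨z', h'⟩ ∧ s = s' := by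
      cases s <;> cases s' <;> simp at e ⊢ <;> omega
    have e2 : z = z' := congrArg Subtype.val (Z.equivFin.injective (Fin.ext e1.1))
    simp only at e'
    rw [e2, e1.2, e']

theorem nodeOut_of_mac (h : c.Ok Λ L) (hG : G.Ok c L) (hU : i + U ≤ L) (huU : u ≤ U)
    {g ε C n th1 th2 σ S E' η Ct sb g' : ℝ} {rQ : ℕ} {cs : ℕ × ℕ → Pt → Finset Pt}
    {bad : ℕ × ℕ → Finset Pt → Prop} {Act : Finset (Mac.Lab Pt)} {X1 X2 : Mac.Lab Pt → Finset Pt}
    (M : Mac.MacOut Prod.fst Prod.snd G.x.t G.x.m Y0 (G.s q.1) (G.s q.2) g ε C (kids c i (i + U) q)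
      (fun j => G.s j.1) (fun j => G.s j.2) (LxK.JJ c i u q) (LxK.anc c i U u)
      (fun j => ((j.2 - j.1 : ℕ) : ℝ)) n th1 th2 rQ σ
      (fun j p => tot (res (one Ω) fun o => c.W (i + U) o = j ∧ G.pt o = p)) (S ^ 2) E' η
      cs bad Act X1 X2)
    {Z : Finset Pt} (hZ : (Z.card : ℝ) ≤ S ^ 2) (hA : ∀ l ∈ Act, l.1 ∈ Z) (hg : g' = g + ε)
    (n1 : 2 * (S ^ 2 + 2) * (S ^ 2 + 1) * (513 / η + 1) ≤ S ^ (2 * U))
    (n2 : C * 8 ^ g / (1 - 2 ^ (-ε)) * G.Ph Y0 q.1 q.2 * n ^ (g + ε)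
      + th2 ^ (g + ε) * ((5 + 4 * S ^ 2 + 1026 / η) * G.Ph Y0 q.1 q.2 + 2 * S ^ 2 * σ)
      ≤ Ct * G.Psi g' (q, Y0))
    (n3 : 3 * (th2 ^ (g + ε) * ((5 + 4 * S ^ 2 + 1026 / η) * G.Ph Y0 q.1 q.2 + 2 * S ^ 2 * σ))
      + 5 * (C * 8 ^ g / (1 - 2 ^ (-ε))) * G.Ph Y0 q.1 q.2 * (n / E') ^ (g + ε)
      + S ^ 2 * (C * 8 ^ g / (1 - 2 ^ (-ε)) * th1 ^ (g + ε) * (G.Ph Y0 q.1 q.2 + 2 * σ))
      ≤ sb * G.Psi g' (q, Y0))
    (n4 : 8 * E' / S ^ 2 + η * (2 * S ^ 2 * (LxK.JJ c i u q).card * rQ) ≤ 10 / S)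
    (n5 : η ≤ 1 / (2 * S ^ 2)) :
    ∃ lb pa, NodeOut c G i u U g' S η Ct sb q Y0 cs bad lb pa := by
  subst hg
  obtain ⟨ix, hix, hinj⟩ := ex_enc Z
  have hik : i ≤ i + U := Nat.le_add_right _ _
  obtain ⟨lb, hlb⟩ : ∃ lb : Pt → Option (ℕ × ℤ), lb = fun p =>
    if x : ∃ l ∈ Act, p ∈ X1 l then some (ix x.choose, x.choose.2.2) else none := ⟨_, rfl⟩
  have lbs : ∀ p l', lb p = some l' ↔ ∃ l ∈ Act, (ix l, l.2.2) = l' ∧ p ∈ X1 l := by
    intro p l'
    rw [hlb]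
    constructor
    · intro e
      simp only at e
      split_ifs at e with x
      exact ⟨x.choose, x.choose_spec.1, Option.some_injective _ e, x.choose_spec.2⟩
    · rintro ⟨l, hl, e, hp⟩
      have x : ∃ l ∈ Act, p ∈ X1 l := ⟨l, hl, hp⟩
      simp only [dif_pos x]
      rw [M.disj _ _ p x.choose_spec.2 hp, e]
  have lbn : ∀ p, lb p = none → ∀ l ∈ Act, p ∉ X1 l := fun p e l hl hp => by
    have := (lbs p _).2 ⟨l, hl, rfl, hp⟩
    rw [e] at this
    exact absurd this (by simp)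
  have uq : ∀ l ∈ Act, ∀ l' ∈ Act, (ix l, l.2.2) = (ix l', l'.2.2) → l = l' := fun l hl l' hl' e =>
    hinj l l' (hA l hl) (hA l' hl') (Prod.mk.inj e).1 (Prod.mk.inj e).2
  have both : ∀ l ∈ Act, ∀ p, (lb p = some (ix l, l.2.2) ∨
      ∃ l1 ∈ Act, (ix l1, l1.2.2) = (ix l, l.2.2) ∧ p ∈ X2 l1) → p ∈ X1 l ∨ p ∈ X2 l := by
    rintro l hl p (e | ⟨l1, h1, e, hp⟩)
    · obtain ⟨l1, h1, e, hp⟩ := (lbs p _).1 e
      exact Or.inl (uq l1 h1 l hl e ▸ hp)
    · exact Or.inr (uq l1 h1 l hl e ▸ hp)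
  have nn := tot_one_nn (InN c G i q Y0)
  refine ⟨lb, fun l' p => ∃ l ∈ Act, (ix l, l.2.2) = l' ∧ p ∈ X2 l, M.self, M.sub, M.part,
    fun j => (le_of_eq_of_le (congrArg (fun s : Finset (Finset Pt) => (#s : ℝ))
      (Finset.ext fun x => by simp only [mem_image])) (M.ncell j)).trans n1,
    (le_of_eq_of_le (sum_congr rfl fun j _ => sum_congr
      (Finset.ext fun x => by simp only [mem_image]) fun _ _ => rfl) M.share).trans n2,
    (le_of_eq_of_le (sum_congr rfl fun j _ => sum_congr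
      (Finset.ext fun x => by simp only [mem_filter, mem_image]) fun _ _ => rfl)
      M.badshare).trans n3,
    fun p l' e => ?_, fun p l' e => ?_, fun p l' e => ?_,
    fun p l' p' e e' => ?_, fun p l' p1 p2 e e1 e2 => ?_, fun p l' p1 j e e1 p2 hp2 => ?_, ?_⟩
  · obtain ⟨l, hl, rfl, -⟩ := (lbs p l').1 e
    have : (ix l : ℝ) < 2 * Z.card := by exact_mod_cast hix l (hA l hl)
    simp only
    linarith
  · obtain ⟨l, hl, rfl, -⟩ := (lbs p l').1 e
    have := M.mass1 l hl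
    rw [mass_tot h hik hU, mass_sub h hik hU (M.sub1 l)] at this
    exact this.trans (tot_one_mono fun o x => ⟨x.1, (lbs _ _).2 ⟨l, hl, rfl, x.2⟩⟩)
  · obtain ⟨l, hl, rfl, -⟩ := (lbs p l').1 e
    have := M.mass2 l hl
    rw [mass_tot h hik hU, mass_sub h hik hU (M.sub2 l)] at this
    refine le_trans ?_ (this.trans (tot_one_mono fun o x => ⟨x.1, l, hl, rfl, x.2⟩))
    rw [div_eq_mul_one_div, mul_comm]
    exact mul_le_mul_of_nonneg_left n5 nn
  · obtain ⟨l, hl, rfl, hp⟩ := (lbs p l').1 e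
    obtain ⟨l1, h1, e1, hp'⟩ := e'
    exact M.gap l hl p hp p' (uq l1 h1 l hl e1 ▸ hp')
  · obtain ⟨l, hl, rfl, -⟩ := (lbs p l').1 e
    have a1 := (@mem_union _ (fun _ _ => Classical.propDecidable _) _ _ _).2 (both l hl p1 e1)
    have a2 := (@mem_union _ (fun _ _ => Classical.propDecidable _) _ _ _).2 (both l hl p2 e2)
    refine ⟨M.arange l hl p1 a1 p2 a2, ?_⟩
    have := M.hrange l hl p1 a1 p2 a2
    unfold TT.lenW
    rw [hG.tau, hG.tau]
    linarith [abs_nonneg ((p1.2 + G.x.t (G.s q.2) * p1.1) - (p2.2 + G.x.t (G.s q.2) * p2.1))]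
  · obtain ⟨l, hl, rfl, -⟩ := (lbs p l').1 e
    have a1 := both l hl p1 e1
    obtain ⟨x0, hx⟩ := M.narrow l hl p1
      ((@mem_union _ (fun _ _ => Classical.propDecidable _) _ _ _).2 a1) j
    have b1 := hx p1 (M.self j p1 (a1.elim (fun y => M.sub1 l y) fun y => M.sub2 l y))
    have b2 := hx p2 hp2
    simp only
    rw [abs_le]
    constructor <;> linarith [b1.1, b1.2, b2.1, b2.2]
  · have m0 := M.miss
    rw [mass_tot h hik hU, mass_eq h hik hU (fun j p => bad j (cs j p))] at m0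
    have this := le_of_eq_of_le (mass_eq h hik hU (fun j p => LxK.anc c i U u j ∈ LxK.JJ c i u q ∧
      ¬ bad j (cs j p) ∧ ∀ l ∈ Act, p ∉ X1 l)).symm m0
    have s1 := tot_one_le3 (Ω := Ω) (A := fun o => InN c G i q Y0 o ∧ lb (G.pt o) = none)
      (B := fun o => InN c G i q Y0 o ∧ ∃ k ∈ Ico i (i + u), ¬ c.clean k o)
      (C := fun o => InN c G i q Y0 o ∧ bad (c.W (i + U) o) (cs (c.W (i + U) o) (G.pt o)))
      (D := fun o => InN c G i q Y0 o ∧ LxK.anc c i U u (c.W (i + U) o) ∈ LxK.JJ c i u q ∧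
        ¬ bad (c.W (i + U) o) (cs (c.W (i + U) o) (G.pt o)) ∧ ∀ l ∈ Act, G.pt o ∉ X1 l) (by
        intro o x
        by_cases y : ∃ k ∈ Ico i (i + u), ¬ c.clean k o
        · exact Or.inl ⟨x.1, y⟩
        by_cases z : bad (c.W (i + U) o) (cs (c.W (i + U) o) (G.pt o))
        · exact Or.inr (Or.inl ⟨x.1, z⟩)
        refine Or.inr (Or.inr ⟨x.1, ?_, z, lbn _ x.2⟩)
        rw [LxK.anc_eq h hU huU, LxK.mem_JJ h (by omega)]
        push Not at y
        exact ⟨x.1.1, fun k hk => y _ (mem_Ico.2 ⟨Nat.le_add_right _ _, by omega⟩)⟩)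
    linarith [mul_le_mul_of_nonneg_right n4 nn]

/-- the trivial step -/
theorem nodeOut_triv {g S η Ct sb : ℝ} (hu : 1 ≤ u) (hS : 1 ≤ S) (hsb : 0 ≤ sb)
    (ng : ∀ o, c.W i o = q → ¬ c.good i o)
    (sh : ∑ j ∈ kids c i (i + U) q, G.Psi g (j, Y0) ≤ Ct * G.Psi g (q, Y0)) :
    NodeOut c G i u U g S η Ct sb q Y0 (fun _ _ => Y0) (fun _ _ => False) (fun _ => none)
      fun _ _ => False := by
  have hP : ∀ x, 0 ≤ G.Psi g x := fun x =>
    mul_nonneg (Nat.cast_nonneg _) (Real.rpow_nonneg (Nat.cast_nonneg _) _)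
  have im : Y0.image (fun _ => Y0) ⊆ {Y0} := fun Z hZ => by
    obtain ⟨_, -, rfl⟩ := mem_image.1 hZ
    exact mem_singleton_self _
  refine ⟨fun _ _ x => x, fun _ _ => Subset.rfl, fun _ _ _ _ => rfl, fun _ => ?_, ?_, ?_,
    fun _ _ e => absurd e (by simp), fun _ _ e => absurd e (by simp), fun _ _ e => absurd e (by simp),
    fun _ _ _ e => absurd e (by simp), fun _ _ _ _ e => absurd e (by simp),
    fun _ _ _ _ e => absurd e (by simp), ?_⟩
  · have h1 : (#(Y0.image fun _ => Y0) : ℝ) ≤ 1 := by exact_mod_cast card_le_card im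
    exact h1.trans (one_le_pow₀ hS)
  · refine le_trans (sum_le_sum fun j _ => ?_) sh
    exact (sum_le_sum_of_subset_of_nonneg im fun _ _ _ => hP _).trans (by rw [sum_singleton])
  · simp only [filter_false, sum_empty, sum_const_zero]
    exact mul_nonneg hsb (hP _)
  · refine (tot_one_mono
      (B := fun o => InN c G i q Y0 o ∧ ∃ k ∈ Ico i (i + u), ¬ c.clean k o) fun o x =>
        ⟨x.1, i, mem_Ico.2 ⟨le_rfl, by omega⟩, fun y => ng o x.1.1 y.1⟩).trans ?_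
    have h2 := tot_one_nn (Ω := Ω) fun o => InN c G i q Y0 o ∧ False
    have h3 := mul_nonneg (div_nonneg (by norm_num : (0 : ℝ) ≤ 10) (by linarith : 0 ≤ S))
      (tot_one_nn (InN c G i q Y0))
    linarith

end Pool.Agent.Lib.MP_d308c3_co.K
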