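import Pool.Agent.Lib.MP_d308c3_co.K.St

/-! The macro step for one node `(q, Y0)`: statement. -/

namespace Pool.Agent.Lib.MP_d308c3_co.K

open Finset Pool.Agent.Lib.MP_108739_an.F
open scoped Classical

noncomputable section

/-- the item lies in the node `(q, Y0)` of level `i` -/
def InN {Ω : Type} (c : TT Ω) (G : Geo Ω) (i : ℕ) (q : ℕ × ℕ) (Y0 : Finset Pt) (o : Ω) : Prop :=
  c.W i o = q ∧ G.pt o ∈ Y0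

/-- the windows of level `k` below the window `q` of level `i` -/
def kids {Ω : Type} [Fintype Ω] (c : TT Ω) (i k : ℕ) (q : ℕ × ℕ) : Finset (ℕ × ℕ) :=
  (univ.filter fun o => c.W i o = q).image (c.W k)

structure NodeOut {Ω : Type} [Fintype Ω] (c : TT Ω) (G : Geo Ω) (i u U : ℕ) (g S η Ct sb : ℝ)
    (q : ℕ × ℕ) (Y0 : Finset Pt) (cs : ℕ × ℕ → Pt → Finset Pt) (bad : ℕ × ℕ → Finset Pt → Prop)
    (lb : Pt → Option (ℕ × ℤ)) (pa : ℕ × ℤ → Pt → Prop) : Prop where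
  self : ∀ j, ∀ p ∈ Y0, p ∈ cs j p
  sub : ∀ j p, cs j p ⊆ Y0
  part : ∀ j p, ∀ p' ∈ cs j p, cs j p' = cs j p
  ncell : ∀ j, (#(Y0.image (cs j)) : ℝ) ≤ S ^ (2 * U)
  share : ∑ j ∈ kids c i (i + U) q, ∑ Z ∈ Y0.image (cs j), G.Psi g (j, Z) ≤ Ct * G.Psi g (q, Y0)
  badshare : ∑ j ∈ kids c i (i + U) q, ∑ Z ∈ (Y0.image (cs j)).filter (bad j), G.Psi g (j, Z)
    ≤ sb * G.Psi g (q, Y0)
  idx : ∀ p l, lb p = some l → (l.1 : ℝ) < 2 * S ^ 2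
  m1 : ∀ p l, lb p = some l → η * tot (res (one Ω) (InN c G i q Y0)) ≤
    tot (res (one Ω) fun o => InN c G i q Y0 o ∧ lb (G.pt o) = some l)
  m2 : ∀ p l, lb p = some l → η * tot (res (one Ω) (InN c G i q Y0)) ≤
    tot (res (one Ω) fun o => InN c G i q Y0 o ∧ pa l (G.pt o))
  sep : ∀ p l p', lb p = some l → pa l p' → (2 : ℝ) ^ l.2 ≤ |p.1 - p'.1|
  ball : ∀ p l p1 p2, lb p = some l → (lb p1 = some l ∨ pa l p1) → (lb p2 = some l ∨ pa l p2) →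
    |p1.1 - p2.1| ≤ 40 * (2 : ℝ) ^ l.2 ∧
      |(p1.2 + c.tau q.1 * p1.1) - (p2.2 + c.tau q.1 * p2.1)| ≤ 40 * c.lenW q * (2 : ℝ) ^ l.2
  prog : ∀ p l p1 j, lb p = some l → (lb p1 = some l ∨ pa l p1) → ∀ p2 ∈ cs j p1,
    |p1.1 - p2.1| ≤ (2 : ℝ) ^ (l.2 - 2)
  miss : tot (res (one Ω) fun o => InN c G i q Y0 o ∧ lb (G.pt o) = none) ≤
    tot (res (one Ω) fun o => InN c G i q Y0 o ∧ ∃ k ∈ Ico i (i + u), ¬ c.clean k o) +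
      3 * tot (res (one Ω) fun o => InN c G i q Y0 o ∧
        bad (c.W (i + U) o) (cs (c.W (i + U) o) (G.pt o))) +
      10 / S * tot (res (one Ω) (InN c G i q Y0))

/-- the macro step for one node -/
def NodeP : Prop :=
  ∀ γ : ℝ, 0 < γ → γ ≤ 1 → ∃ cu : ℝ, ∀ Λ : ℝ, 1 ≤ Λ → ∃ u U : ℕ, 1 ≤ u ∧ u ≤ U ∧
  (u : ℝ) ≤ cu * √Λ ∧ ∀ ε C0 : ℝ, 0 < ε → ε ≤ 1 → 1 ≤ C0 → ∃ Ct S0 : ℝ, 1 ≤ Ct ∧
  ∀ S : ℝ, S0 ≤ S → ∃ η : ℝ, 0 < η ∧ η ≤ 1 ∧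
  ∀ (Ω : Type) [Fintype Ω] (c : TT Ω) (G : Geo Ω) (L i : ℕ) (q : ℕ × ℕ) (Y0 : Finset Pt), c.S = S →
    c.Ok Λ L → G.Ok c L → G.x.PWs (γ + ε) C0 → i + U ≤ L → Y0 ⊆ G.x.X → (∃ o, InN c G i q Y0 o) →
    ∃ cs bad lb pa, NodeOut c G i u U (γ + 2 * ε) S η Ct (S ^ (-(γ / 2))) q Y0 cs bad lb pa

/-- gluing over the nodes -/
def GlueSt : Prop := NodeP → StepSt

end

end Pool.Agent.Lib.MP_d308c3_co.K
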