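import Pool.Agent.Lib.MP_d308c3_co.K.S.StepIn
import Pool.Agent.Lib.MP_d308c3_co.K.S.NodeDef

/-! A node whose window is not good is split in time only. -/

set_option autoImplicit false

namespace Pool.Agent.Lib.MP_d308c3_co.K.StepIn

open Finset LxK Pool.Agent.Lib.MP_108739_an.F
open scoped Classical

variable {Ω : Type} [Fintype Ω] {c : TT Ω} {G : Geo Ω} {Λ : ℝ} {L : ℕ}

theorem cnt_nonneg (A : Ω → Prop) : 0 ≤ tot (res (one Ω) A) :=
  sum_nonneg fun _ _ => by unfold res one; split_ifs <;> norm_num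

theorem cnt_mono {A B : Ω → Prop} (h : ∀ o, A o → B o) : tot (res (one Ω) A) ≤ tot (res (one Ω) B) :=
  sum_le_sum fun o _ => by
    unfold res one
    by_cases a : A o
    · rw [if_pos a, if_pos (h o a)]
    · rw [if_neg a]
      split_ifs <;> norm_num

omit [Fintype Ω] in
theorem Psi_nonneg (g : ℝ) (q : (ℕ × ℕ) × Finset Pt) : 0 ≤ G.Psi g q :=
  mul_nonneg (Nat.cast_nonneg _) (Real.rpow_nonneg (Nat.cast_nonneg _) _)

theorem node_ng (h : c.Ok Λ L) (hG : G.Ok c L) {γ ε C0 S η Ct sb : ℝ} (h0 : 0 < γ) (hε : 0 < ε)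
    (hC : 1 ≤ C0) (hP : G.x.PWs (γ + ε) C0) {i u U : ℕ} (hu : 1 ≤ u) (hU : i + U ≤ L) (hS : 1 ≤ S)
    (hCt : C0 * 8 ^ (γ + ε) / (1 - 2 ^ (-ε)) ≤ Ct) (hsb : 0 ≤ sb) {q : ℕ × ℕ} {Y0 : Finset Pt}
    (hY : Y0 ⊆ G.x.X) {o0 : Ω} (hq : c.W i o0 = q) (hg : ¬ c.good i o0) :
    NodeOut c G i u U (γ + 2 * ε) S η Ct sb q Y0 (fun _ _ => Y0) (fun _ _ => False) (fun _ => none)
      fun _ _ => False := by
  have hc : ∀ j : ℕ × ℕ, Y0.image (fun _ : Pt => Y0) ⊆ {Y0} := fun _ x hx => by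
    obtain ⟨_, -, rfl⟩ := mem_image.1 hx
    exact mem_singleton_self _
  refine ⟨fun _ _ hp => hp, fun _ _ => Subset.rfl, fun _ _ _ _ => rfl, fun j => ?_, ?_, ?_,
    fun _ _ e => by simp at e, fun _ _ e => by simp at e, fun _ _ e => by simp at e,
    fun _ _ _ e => by simp at e, fun _ _ _ _ e => by simp at e, fun _ _ _ _ e => by simp at e, ?_⟩
  · have a : (#(Y0.image fun _ : Pt => Y0) : ℝ) ≤ 1 := by exact_mod_cast card_le_card (hc j)
    exact a.trans (one_le_pow₀ hS)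
  · refine le_trans (sum_le_sum fun j _ => ?_) ((share_time h hG h0 hε hC hP hU q hY).trans
      (mul_le_mul_of_nonneg_right hCt (Psi_nonneg _ _)))
    exact (sum_le_sum_of_subset_of_nonneg (hc j) fun _ _ _ => Psi_nonneg _ _).trans_eq (sum_singleton _ _)
  · simp only [filter_false, sum_empty, sum_const_zero]
    exact mul_nonneg hsb (Psi_nonneg _ _)
  · refine le_trans (cnt_mono fun o k => ?_) ((le_add_of_nonneg_right
      (mul_nonneg (by norm_num) (cnt_nonneg _))).trans (le_add_of_nonneg_right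
      (mul_nonneg (by positivity) (cnt_nonneg _))))
    exact ⟨k.1, i, mem_Ico.2 ⟨le_rfl, by omega⟩, fun e => hg (good_congr (k.1.1.trans hq.symm) e.1)⟩

end Pool.Agent.Lib.MP_d308c3_co.K.StepIn
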