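import Pool.Agent.Lib.MP_d308c3_co.K.St
import Pool.Agent.Lib.MP_d308c3_co.K.CbB

/-! The column path of one window. -/

set_option autoImplicit false

namespace Pool.Agent.Lib.MP_d308c3_co.K

open Finset Pool.Agent.Lib.MP_108739_an.F
open Classical

namespace Cb

variable {Ω : Type}

theorem card_ex_le {ι κ : Type} (s : Finset ι) (t : Finset κ) (P : ι → κ → Prop)
    [DecidablePred fun i => ∃ h ∈ t, P i h] [∀ i h, Decidable (P i h)] :
    (#(s.filter fun i => ∃ h ∈ t, P i h) : ℝ) ≤ ∑ i ∈ s, ∑ h ∈ t, if P i h then 1 else 0 := by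
  rw [card_filter]
  push_cast
  refine sum_le_sum fun i _ => ?_
  split_ifs with k
  · obtain ⟨h, hh, hp⟩ := k
    have := single_le_sum (f := fun h => if P i h then (1 : ℝ) else 0)
      (fun j _ => by positivity) hh
    rwa [if_pos hp] at this
  · exact sum_nonneg fun j _ => by positivity

theorem sum_blocks (f : ℕ → ℝ) (g n : ℕ) :
    ∑ j ∈ range n, ∑ k ∈ Ico (j * g) (j * g + g), f k = ∑ k ∈ Ico 0 (n * g), f k := by
  induction n with
  | zero => simp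
  | succ n ih =>
    rw [sum_range_succ, ih, add_one_mul]
    exact sum_Ico_consecutive _ (Nat.zero_le _) (Nat.le_add_right _ _)

theorem E_ind' [Fintype Ω] (w : Ω → ℝ) (P : Ω → Prop) [DecidablePred P] :
    (E w fun o => if P o then 1 else 0) = tot (res w P) := by
  convert E_ind (w := w) P

variable [Fintype Ω] {A : Arr Ω} {w : Ω → ℝ} {Λ η Bd : ℝ} {Hn K0 : ℕ}

theorem pin (h : A.Ok w Λ η Hn K0 Bd) {x : Bool × ℕ} {g nb : ℕ} (hg : nb * g = A.d.Gr) {o o' : Ω}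
    (s1 : A.C.sel x o) (s2 : A.C.sel x o')
    (e : (A.C.sc x o, A.d.nd (A.C.sc x o) o, A.d.lab (A.C.sc x o) o) =
      (A.C.sc x o', A.d.nd (A.C.sc x o') o', A.d.lab (A.C.sc x o') o'))
    (e1 : A.d.W (nb * g) o = A.d.W (nb * g) o') (e0 : A.d.W 0 o = A.d.W 0 o') :
    base A x o = base A x o' ∧
      |(path A x g nb).ht nb o - (path A x g nb).ht nb o'| ≤ (path A x g nb).R nb o := by
  obtain ⟨hc, c1, l, hl, hk, hx⟩ := h.C.sel x o s1
  obtain ⟨-, c2, -⟩ := h.C.sel x o' s2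
  have a1 : A.C.sc x o = A.C.sc x o' := congrArg Prod.fst e
  have a2 : A.d.nd (A.C.sc x o) o = A.d.nd (A.C.sc x o') o' := congrArg (fun y => y.2.1) e
  have a3 : A.d.lab (A.C.sc x o) o = A.d.lab (A.C.sc x o') o' := congrArg (fun y => y.2.2) e
  rw [← a1] at a2 a3
  have x2 : A.d.X2 (A.C.sc x o) l o o' := ⟨a2.symm, Or.inl (a3 ▸ hl)⟩
  have cv := hx o' x2
  obtain ⟨b1, b2⟩ := (h.d.lab _ hc).ball o l o o' hl ⟨rfl, Or.inl hl⟩ x2
  refine ⟨by simp only [base, e0, cv, if_pos c1, if_pos c2], ?_⟩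
  have tt := h.d.tt
  have n1 := nest_le tt (Gr_le A (A.C.sc x o)) (lev_le A.d hc.le) o
  have lt := tt.lt _ (lev_le A.d hc.le) o
  have m := tt.mono.monotone
  have t1 := m n1.1
  have t2 := m n1.2
  have t3 := m lt.le
  have e2 : A.d.lo A.d.Gr o' = A.d.lo A.d.Gr o := by
    rw [hg] at e1; exact (congrArg Prod.fst e1).symm
  have hq : (0 : ℝ) < 2 ^ l.2 := by positivity
  have e3 : (2 : ℝ) ^ (l.2 + 7) = 128 * 2 ^ l.2 := by
    rw [zpow_add₀ two_ne_zero]; norm_num [mul_comm]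
  simp only [Col.Path.ht, Col.Path.hv, Col.Path.R, path, TT.W, TT.lenW, TT.len, hg, if_pos c1,
    if_pos c2, e2, (cv_eq cv c1).2.2, hk, e3] at b2 ⊢
  set t := A.d.tau (A.d.lo A.d.Gr o)
  set t' := A.d.tau (A.d.lo (A.d.lev (A.C.sc x o)) o)
  set u := A.d.tau (A.d.hi A.d.Gr o)
  set u' := A.d.tau (A.d.hi (A.d.lev (A.C.sc x o)) o)
  have k1 : A.d.b o + t * (A.d.a o - A.C.xl x 0 o) - (A.d.b o' + t * (A.d.a o' - A.C.xl x 0 o)) =
      (A.d.b o + t' * A.d.a o - (A.d.b o' + t' * A.d.a o')) - (t' - t) * (A.d.a o - A.d.a o') := by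
    ring
  have k2 : |(t' - t) * (A.d.a o - A.d.a o')| ≤ (u - t) * (40 * 2 ^ l.2) := by
    rw [abs_mul]
    exact mul_le_mul (abs_le.2 ⟨by linarith, by linarith⟩) b1 (abs_nonneg _) (by linarith)
  have k3 : (u' - t') * 2 ^ l.2 ≤ (u - t) * 2 ^ l.2 :=
    mul_le_mul_of_nonneg_right (by linarith) hq.le
  have k4 : 0 ≤ (u - t) * 2 ^ l.2 := mul_nonneg (by linarith) hq.le
  rw [k1]
  refine (abs_sub _ _).trans ?_
  linarith

/-- block `j` has both options -/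
def Good (A : Arr Ω) (w : Ω → ℝ) (Hn : ℕ) (x : Bool × ℕ) (g nb : ℕ) (J : ℝ) (j : ℕ) (o : Ω) : Prop :=
  j + 1 < nb ∧ ∃ lam : ℝ, A.d.len ((j + 2) * g) o ≤ lam ∧
    lam ≤ 2 ^ (0 : ℝ) * A.d.len ((j + 1) * g) o ∧
    (∃ τ ∈ range (2 * g) ×ˢ range Hn ×ˢ range Hn, (path A x g nb).Opt w (opt A x g j τ) j lam J o) ∧
    ∃ τ ∈ range (2 * g) ×ˢ range Hn ×ˢ range Hn,
      (path A x g nb).Opt w (opt A x g (j + 1) τ) (j + 1) lam J o

/-- the cell of level `i` is in trouble -/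
def Tb (A : Arr Ω) (w : Ω → ℝ) (Λ : ℝ) (Jb : ℕ) (τ0 : ℝ) (x : Bool × ℕ) (g : ℕ) (J : ℝ) (o : Ω)
    (i : ℕ) (p : ℕ × ℕ) : Prop :=
  (A.d.spl i o ∧ A.mkc (A.R.cn i o) p w o ∧ ¬ A.sat (A.R.cn i o) p x w Λ Jb τ0 o) ∨
    Bad A w Λ Jb τ0 x g i p (i / g - 1) J o ∨ Bad A w Λ Jb τ0 x g i p (i / g) J o

theorem good_of (h : A.Ok w Λ η Hn K0 Bd) {x : Bool × ℕ} {g nb j i : ℕ} (hg : nb * g = A.d.Gr)
    (g1 : 1 ≤ g) (g2 : g ≤ A.g0) (hj : j + 1 < nb) (i1 : (j + 1) * g ≤ i)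
    (i2 : i < (j + 1 + 1) * g) {o : Ω} (ho : 0 < w o) (hc : A.C.ca x o)
    (hm : A.d.mkd w A.d.p i o) {Jb : ℕ} {τ0 J : ℝ}
    (ht : ¬ ∃ p ∈ range Hn ×ˢ range Hn, Tb A w Λ Jb τ0 x g J o i p) :
    Good A w Hn x g nb J j o := by
  have tt := h.d.tt
  have hL := Gr_le A A.d.m
  have le3 : (j + 1 + 1) * g ≤ A.d.Gr := by rw [← hg]; exact Nat.mul_le_mul_right _ hj
  have x1 : (j + 1) * g = j * g + g := add_one_mul _ _
  have x2 : (j + 1 + 1) * g = (j + 1) * g + g := add_one_mul _ _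
  have hi : i < A.d.Gr := by omega
  obtain ⟨hv, o', hp⟩ := hm
  have hs : A.d.spl i o := by
    by_contra hs
    have hs' : ¬ A.d.spl i o' := fun k => hs (spl_congr hp.2.1.symm k)
    exact hp.2.2.2.1 ((tt.idle i (by omega) o' hs').trans
      (hp.2.1.trans (tt.idle i (by omega) o hs).symm))
  obtain ⟨p, hp1, hp2⟩ := h.R.pair i hi o o' ho hp.1 hv.1 hp.2.2.2.2.1 hp.2.1 hp.2.2.2.1
  have mk : A.mkc (A.R.cn i o) p w o := ⟨i, hi, rfl, hv, o', hp, hp2⟩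
  have nt : ¬ Tb A w Λ Jb τ0 x g J o i p := fun k => ht ⟨p, hp1, k⟩
  have ei : i / g = j + 1 := Nat.div_eq_of_lt_le i1 i2
  unfold Tb at nt
  rw [ei, Nat.add_sub_cancel] at nt
  have st : A.sat (A.R.cn i o) p x w Λ Jb τ0 o := by
    by_contra k; exact nt (Or.inl ⟨hs, mk, k⟩)
  have f1 : FineC A w x g i p j J o := by
    by_contra k; exact nt (Or.inr (Or.inl ⟨hs, hc, st, k⟩))
  have f2 : FineC A w x g i p (j + 1) J o := by
    by_contra k; exact nt (Or.inr (Or.inr ⟨hs, hc, st, k⟩))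
  obtain ⟨s1, s2, s3, s4⟩ := row_sub h hi p hs
  have n1 := nest_le tt i1 (by omega) o
  have n2 := nest_le tt (show i + 1 ≤ (j + 1 + 1) * g from i2) (by omega) o
  have m := tt.mono.monotone
  refine ⟨hj, A.R.lam A.d.toTT (A.R.cn i o) p o, ?_, ?_,
    ⟨(i - j * g, p), mem_product.2 ⟨mem_range.2 (by omega), hp1⟩,
      opt_of_fine h hi (by omega) (by omega) (by omega) hs hc f1⟩,
    ⟨(i - (j + 1) * g, p), mem_product.2 ⟨mem_range.2 (by omega), hp1⟩,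
      opt_of_fine h hi i1 (by omega) le3 hs hc f2⟩⟩
  · simp only [TT.len, TT.lenW, TT.W, Row.lam]
    linarith [m (s2.trans n2.1), m (n2.2.trans s3)]
  · simp only [TT.len, TT.lenW, TT.W, Row.lam, Real.rpow_zero, one_mul]
    linarith [m (n1.1.trans s1), m (s4.trans n1.2)]

theorem fail_count (h : A.Ok w Λ η Hn K0 Bd) {x : Bool × ℕ} {g nb : ℕ} (hg : nb * g = A.d.Gr)
    (g1 : 1 ≤ g) (g2 : g ≤ A.g0) {o : Ω} (ho : 0 < w o) (hc : A.C.ca x o) (Jb : ℕ) (τ0 J : ℝ) :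
    (#((range nb).filter fun j => ¬ Good A w Hn x g nb J j o) : ℝ) ≤
      1 + A.d.unm w A.d.p g nb o +
      (∑ r ∈ range A.d.Gr, ∑ p ∈ range Hn ×ˢ range Hn,
        if A.mkc r p w o ∧ ¬ A.sat r p x w Λ Jb τ0 o then 1 else 0) +
      (∑ i ∈ range A.d.Gr, ∑ p ∈ range Hn ×ˢ range Hn,
        if Bad A w Λ Jb τ0 x g i p (i / g - 1) J o then 1 else 0) +
      ∑ i ∈ range A.d.Gr, ∑ p ∈ range Hn ×ˢ range Hn,
        if Bad A w Λ Jb τ0 x g i p (i / g) J o then 1 else 0 := by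
  set Pr := range Hn ×ˢ range Hn
  let s1 := (range nb).filter fun j => ∀ i ∈ Ico (j * g) ((j + 1) * g), ¬ A.d.mkd w A.d.p i o
  let s2 := (range A.d.Gr).filter fun i => ∃ p ∈ Pr,
    A.d.spl i o ∧ A.mkc (A.R.cn i o) p w o ∧ ¬ A.sat (A.R.cn i o) p x w Λ Jb τ0 o
  let s3 := (range A.d.Gr).filter fun i => ∃ p ∈ Pr, Bad A w Λ Jb τ0 x g i p (i / g - 1) J o
  let s4 := (range A.d.Gr).filter fun i => ∃ p ∈ Pr, Bad A w Λ Jb τ0 x g i p (i / g) J o
  have sub : ((range nb).filter fun j => ¬ Good A w Hn x g nb J j o) ⊆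
      insert (nb - 1) (s1.image (· - 1) ∪ (s2 ∪ s3 ∪ s4).image fun i => i / g - 1) := by
    intro j hj
    obtain ⟨j1, j2⟩ := mem_filter.1 hj
    rw [mem_range] at j1
    by_cases k : j + 1 < nb
    swap
    · exact mem_insert.2 (Or.inl (by omega))
    refine mem_insert_of_mem (mem_union.2 ?_)
    by_cases k1 : j + 1 ∈ s1
    · exact Or.inl (mem_image.2 ⟨j + 1, k1, rfl⟩)
    right
    have k2 : ∃ i ∈ Ico ((j + 1) * g) ((j + 1 + 1) * g), A.d.mkd w A.d.p i o := by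
      by_contra k2
      exact k1 (by
        simp only [s1, mem_filter]
        exact ⟨mem_range.2 k, fun i hi hm => k2 ⟨i, hi, hm⟩⟩)
    obtain ⟨i, hi, hm⟩ := k2
    obtain ⟨i1, i2⟩ := mem_Ico.1 hi
    have le3 : (j + 1 + 1) * g ≤ A.d.Gr := by rw [← hg]; exact Nat.mul_le_mul_right _ k
    have hi' : i ∈ range A.d.Gr := mem_range.2 (by omega)
    have k3 : ∃ p ∈ Pr, Tb A w Λ Jb τ0 x g J o i p := by
      by_contra k3
      exact j2 (good_of h hg g1 g2 k i1 i2 ho hc hm k3)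
    obtain ⟨p, hp, k4⟩ := k3
    refine mem_image.2 ⟨i, ?_, by rw [Nat.div_eq_of_lt_le i1 i2]; rfl⟩
    rcases k4 with k4 | k4 | k4
    · exact mem_union_left _ (mem_union_left _ (mem_filter.2 ⟨hi', p, hp, k4⟩))
    · exact mem_union_left _ (mem_union_right _ (mem_filter.2 ⟨hi', p, hp, k4⟩))
    · exact mem_union_right _ (mem_filter.2 ⟨hi', p, hp, k4⟩)
  have c0 := card_le_card sub
  have c1 := card_insert_le (nb - 1) (s1.image (· - 1) ∪ (s2 ∪ s3 ∪ s4).image fun i => i / g - 1)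
  have c2 := card_union_le (s1.image (· - 1)) ((s2 ∪ s3 ∪ s4).image fun i => i / g - 1)
  have c3 : #(s1.image (· - 1)) ≤ #s1 := card_image_le
  have c4 : #((s2 ∪ s3 ∪ s4).image fun i => i / g - 1) ≤ #(s2 ∪ s3 ∪ s4) := card_image_le
  have c5 := card_union_le (s2 ∪ s3) s4
  have c6 := card_union_le s2 s3
  have c7 : #s2 ≤ #((range A.d.Gr).filter fun r =>
      ∃ p ∈ Pr, A.mkc r p w o ∧ ¬ A.sat r p x w Λ Jb τ0 o) := by
    refine card_le_card_of_injOn (fun i => A.R.cn i o) (fun i hi => ?_) fun i hi i' hi' e => ?_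
    · obtain ⟨a, p, hp, b, c⟩ := mem_filter.1 (mem_coe.1 hi)
      exact mem_coe.2 (mem_filter.2
        ⟨mem_range.2 (h.R.cn_spec i (mem_range.1 a) o b).2.2.2.1, p, hp, c⟩)
    · obtain ⟨a, p, -, b, -⟩ := mem_filter.1 (mem_coe.1 hi)
      obtain ⟨a', p', -, b', -⟩ := mem_filter.1 (mem_coe.1 hi')
      rcases lt_trichotomy i i' with k | k | k
      · exact absurd e (h.R.cn_inj i i' o k (mem_range.1 a') b).ne
      · exact k
      · exact absurd e (h.R.cn_inj i' i o k (mem_range.1 a) b').ne'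
  have d2 := card_ex_le (range A.d.Gr) Pr fun r p => A.mkc r p w o ∧ ¬ A.sat r p x w Λ Jb τ0 o
  have d3 := card_ex_le (range A.d.Gr) Pr fun i p => Bad A w Λ Jb τ0 x g i p (i / g - 1) J o
  have d4 := card_ex_le (range A.d.Gr) Pr fun i p => Bad A w Λ Jb τ0 x g i p (i / g) J o
  have c8 : #((range nb).filter fun j => ¬ Good A w Hn x g nb J j o) ≤ 1 + #s1 +
      #((range A.d.Gr).filter fun r => ∃ p ∈ Pr, A.mkc r p w o ∧ ¬ A.sat r p x w Λ Jb τ0 o) +
      #s3 + #s4 := by omega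
  have c9 := (Nat.cast_le (α := ℝ)).2 c8
  push_cast at c9
  have e1 : A.d.unm w A.d.p g nb o = #s1 := by unfold TT.unm; congr
  rw [e1]
  linarith

end Cb

open Cb in
theorem pathP : PathP := by
  intro Ω _ A w Λ η Bd r0 τ0 Hn K0 s Jb g nb h hN hr hτ g1 g2 hg x Ev hE
  have tt := h.d.tt
  have hw := h.nn
  have hEw := hw.res Ev
  have hS := lgS_pos tt
  have hL := Gr_le A A.d.m
  have hΛ := h.one
  have hP : 1 ≤ A.P := by linarith [hN.P2]
  set bt : ℝ := 2 * g * lg A.d.S with hbt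
  have hb : 0 ≤ bt := by positivity
  have eJ : (2 : ℝ) ^ (3 * bt) = A.d.S ^ (6 * g) := by
    have e : A.d.S ^ (6 * g) = ((2 : ℝ) ^ lg A.d.S) ^ (6 * g) := by rw [two_rpow_lg (S_pos tt)]
    rw [e, ← Real.rpow_natCast, ← Real.rpow_mul zero_le_two, hbt]
    congr 1; push_cast; ring
  have hJ : (0 : ℝ) < 2 ^ (3 * bt) := Real.rpow_pos_of_pos two_pos _
  have le1 : ∀ j, j < nb → j * g + g ≤ A.d.Gr := fun j hj => by
    rw [hg, ← add_one_mul]; exact Nat.mul_le_mul_right _ hj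
  have key := (path_ok h x (g := g) (nb := nb) (by rw [hg, mul_comm])).column hw Ev
    (n0 := A.d.W 0) (fun o o' e => congrArg Prod.fst e)
    (fun o o' e => by simp only [path, zero_mul, e])
    (fun o => (A.C.sc x o, A.d.nd (A.C.sc x o) o, A.d.lab (A.C.sc x o) o))
    (fun o o' _ _ a b e e1 e0 => pin h hg.symm (hE o a) (hE o' b) e e1 e0)
    (range (2 * g) ×ˢ range Hn ×ˢ range Hn) (opt A x g)
    (fun j _ τ _ => Det.snd.trans Det.snd) (fun j _ τ _ => Det.snd.trans Det.fst) hb le_rfl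
    (fun j o => ∑ k ∈ Ico (j * g) (j * g + g), A.d.ov k o)
    (fun j hj o _ _ => sum_nonneg fun k hk => ov_nonneg tt
      (by have := le1 j hj; have := (mem_Ico.1 hk).2; omega) o)
    (fun j hj o _ _ => by
      have := ratio_le tt (j * g) g ((le1 j hj).trans hL) o
      simp only [path, add_one_mul]
      exact this)
    (fun j o => ¬ Good A w Hn x g nb (2 ^ (3 * bt)) j o)
    (fun o _ _ j _ k => not_not.1 k)
  have hl := H_lab h.d hw h.eta.1 h.eta.2 hr Ev (A.C.sc x)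
    (fun o a => by
      obtain ⟨a1, -, l, a2, -⟩ := h.C.sel x o (hE o a)
      exact ⟨a1, l, a2⟩) (A.d.W 0)
  simp only [path, Col.Path.gain, zero_mul, sum_blocks, ← hg] at key
  set Pr := range Hn ×ˢ range Hn with hPr
  have cnt : E (res w Ev) (fun o => A.d.gain w A.d.p 0 A.d.Gr o -
      bt * (1 + A.d.unm w A.d.p g nb o)) ≤ E (res w Ev) (fun o =>
        (lg (ms w (pr (A.d.W 0) A.d.p) o / ms w (pr (A.d.W A.d.Gr) A.d.p) o) -
          ∑ j ∈ range nb, if ¬ Good A w Hn x g nb (2 ^ (3 * bt)) j o then bt else 0) +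
        bt * ((∑ r ∈ range A.d.Gr, ∑ p ∈ Pr,
          if A.mkc r p w o ∧ ¬ A.sat r p x w Λ Jb τ0 o then 1 else 0) +
        (∑ i ∈ range A.d.Gr, ∑ p ∈ Pr,
          if Bad A w Λ Jb τ0 x g i p (i / g - 1) (2 ^ (3 * bt)) o then 1 else 0) +
        ∑ i ∈ range A.d.Gr, ∑ p ∈ Pr,
          if Bad A w Λ Jb τ0 x g i p (i / g) (2 ^ (3 * bt)) o then 1 else 0)) := by
    refine E_mono hEw fun o ho => ?_
    obtain ⟨a, b⟩ := res_pos ho
    have k := mul_le_mul_of_nonneg_left (fail_count h hg.symm g1 g2 b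
      (h.C.sel x o (hE o a)).2.1 Jb τ0 (2 ^ (3 * bt))) hb
    rw [← sum_filter, sum_const, nsmul_eq_mul]
    unfold TT.gain TT.mu
    linarith
  rw [E_add, E_mul, E_add, E_add, E_sum, E_sum, E_sum] at cnt
  simp only [E_sum, E_ind', res_res] at cnt
  have bad : ∀ i ∈ range A.d.Gr, ∀ j, j ≤ i / g → ∀ p,
      tot (res w fun o => Ev o ∧ Bad A w Λ Jb τ0 x g i p j (2 ^ (3 * bt)) o) ≤
        10000 * A.d.S ^ (6 * g) * Λ * τ0 * tot w := by
    intro i hi j hj p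
    have hi' := mem_range.1 hi
    have a1 : i / g < nb := (Nat.div_lt_iff_lt_mul g1).2 (hg ▸ hi')
    have a2 : (j + 1) * g ≤ i / g * g + g := by
      rw [← add_one_mul]; exact Nat.mul_le_mul_right _ (by omega)
    have a3 := Nat.div_mul_le_self i g
    have a4 := le1 _ a1
    refine (tot_res_mono hw fun o _ k => k.2).trans ((bad_le h hP hN.Jb hN.P3 hτ hJ x hi'
      (by omega) (by omega) p).trans ?_)
    rw [← eJ]
    have : 0 ≤ (2 : ℝ) ^ (3 * bt) * Λ * τ0 * tot w := by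
      have := tot_nonneg hw
      positivity
    linarith
  have b1 := sum_le_sum fun i hi => sum_le_sum (s := Pr) fun p _ =>
    bad i hi (i / g - 1) (Nat.sub_le _ _) p
  have b2 := sum_le_sum fun i hi => sum_le_sum (s := Pr) fun p _ => bad i hi (i / g) le_rfl p
  have b3 : ∑ r ∈ range A.d.Gr, ∑ p ∈ Pr,
      (tot (res w fun o => Ev o ∧ A.mkc r p w o ∧ ¬ A.sat r p x w Λ Jb τ0 o) +
        20000 * A.d.S ^ (6 * g) * Λ * τ0 * tot w) =
      ∑ r ∈ range A.d.Gr, ∑ p ∈ Pr,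
        tot (res w fun o => Ev o ∧ A.mkc r p w o ∧ ¬ A.sat r p x w Λ Jb τ0 o) +
      ∑ _r ∈ range A.d.Gr, ∑ _p ∈ Pr, 10000 * A.d.S ^ (6 * g) * Λ * τ0 * tot w +
      ∑ _r ∈ range A.d.Gr, ∑ _p ∈ Pr, 10000 * A.d.S ^ (6 * g) * Λ * τ0 * tot w := by
    simp only [← sum_add_distrib]
    exact sum_congr rfl fun _ _ => sum_congr rfl fun _ _ => by ring
  have b4 := mul_le_mul_of_nonneg_left (add_le_add b1 b2) hb
  have ovs : E (res w Ev) (A.d.ovs (A.d.lev A.d.m)) =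
      E (res w Ev) (fun o => ∑ k ∈ Ico 0 A.d.Gr, A.d.ov k o) +
      E (res w Ev) (fun o => ∑ k ∈ Ico A.d.Gr (A.d.lev A.d.m), A.d.ov k o) := by
    rw [← E_add]
    refine congrArg _ (funext fun o => ?_)
    rw [sum_Ico_consecutive _ (Nat.zero_le _) hL, TT.ovs, range_eq_Ico]
  have m1 : lg ((A.d.m : ℝ) + 1) ≤ 1 + lg A.d.m := by
    rcases Nat.eq_zero_or_pos A.d.m with k | k
    · simp [k, lg]
    · have k' : (1 : ℝ) ≤ A.d.m := by exact_mod_cast k
      have e : lg (2 * (A.d.m : ℝ)) = 1 + lg A.d.m := by rw [lg_mul two_pos (by linarith), lg_two]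
      rw [← e]
      exact lg_mono (by linarith) (by linarith)
  have eT : (#(range (2 * g) ×ˢ Pr) : ℝ) = 2 * g * Hn ^ 2 := by
    simp only [hPr, card_product, card_range]; push_cast; ring
  rw [eT] at key
  have q0 : (0 : ℝ) ≤ 2 * g * Hn ^ 2 := by positivity
  have m2 : lg (2 * g * Hn ^ 2 + 1) ≤ lg (2 * g * Hn ^ 2 + 2) :=
    lg_mono (by linarith) (by linarith)
  have m3 : 1 ≤ lg (2 * g * Hn ^ 2 + 2) := by
    rw [← lg_two]; exact lg_mono two_pos (by linarith)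
  have t1 := tot_nonneg hw
  have t2 := tot_nonneg hEw
  have n0 : (0 : ℝ) ≤ nb := Nat.cast_nonneg _
  have m4 : (1 + nb * (2 + 2 * lg (2 * g * Hn ^ 2 + 1))) * tot w ≤
      (10 + 10 * nb * lg (2 * g * Hn ^ 2 + 2)) * tot w :=
    mul_le_mul_of_nonneg_right (by nlinarith) t1
  have m5 := mul_le_mul_of_nonneg_right m1 t2
  have m6 := mul_nonneg n0 t2
  have e5 := le_of_eq_of_le (a := E (res w Ev) fun o =>
      lg (ms w (pr (A.d.W 0) A.d.p) o / ms w (pr (A.d.W A.d.Gr) A.d.p) o) -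
        ∑ j ∈ range nb, if ¬ Good A w Hn x g nb (2 ^ (3 * bt)) j o then bt else 0)
    (by congr!) key
  rw [b3, ovs]
  linarith

theorem path : PathSt := fun _ _ => pathP

end Pool.Agent.Lib.MP_d308c3_co.K
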