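import Pool.Agent.Lib.MP_d308c3_co.K.St
import Pool.Agent.Lib.MP_d308c3_co.K.CellB

set_option autoImplicit false

/-! Active cells are saturated. -/

namespace Pool.Agent.Lib.MP_d308c3_co.K

open Finset Pool.Agent.Lib.MP_108739_an.F

theorem rect : RectSt := by
  intro Ω _ A w Λ η Bd r0 e τ0 Hn K0 s Jb hA hN he hτ r h x
  have h1 := CellB.rect hA hN r h x hτ he
  have h2 := Real.sqrt_nonneg (tot w * A.d2 r h x w)
  linarith

end Pool.Agent.Lib.MP_d308c3_co.K
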