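import Pool.Agent.Lib.MP_d308c3_co.K.St
import Pool.Agent.Lib.MP_d308c3_co.K.Row

/-! Rows exist. -/

namespace Pool.Agent.Lib.MP_d308c3_co.K

theorem row : RowSt := fun _ c w _ _ Gr _ _ h hG hH => ⟨c.row Gr, h.row_ok hG hH w⟩

end Pool.Agent.Lib.MP_d308c3_co.K
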