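import Pool.Agent.Lib.MP_d308c3_co.K.S.Glue
import Pool.Agent.Lib.MP_d308c3_co.K.S.Node

/-! One long step for all nodes of a level. -/

namespace Pool.Agent.Lib.MP_d308c3_co.K

theorem step : StepSt := glue node

end Pool.Agent.Lib.MP_d308c3_co.K
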