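import Pool.Agent.Lib.MP_d308c3_co.K.St
import Pool.Agent.Lib.MP_d308c3_co.TT.Main

/-! The time tree in the form of the skeleton. -/

namespace Pool.Agent.Lib.MP_d308c3_co.K

open Finset Pool.Agent.Lib.MP_108739_an.F
open scoped Classical

theorem TT.Ok.lam_mono {Ω : Type} {c : TT Ω} {Λ Λ' : ℝ} {L : ℕ} (h : c.Ok Λ L) (hΛ : Λ ≤ Λ') :
    c.Ok Λ' L :=
  ⟨h.two, h.big, h.mono, h.lt, h.nest, h.lami, h.size, h.idle, h.half, h.cls_det,
    fun i hi o o' a b d e => (h.sep i hi o o' a b d e).trans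
      (mul_le_mul_of_nonneg_right hΛ (sub_nonneg.2 (h.mono.monotone e)))⟩

theorem tt : TTSt := by
  intro γ ε C0 C hγ hγ1 e0 e1 hC0 C1 Lt hLt
  have c1 := MP_d308c3_co.TT.one_le_C3 hγ hC0 (zero_le_one.trans C1)
  have l1 := lg_nonneg c1
  have l2 := lg_nonneg hC0
  refine ⟨lg C0 + lg (MP_d308c3_co.TT.C3 γ C0 C), by linarith,
    fun S hS M L τ F Ω _ atm hτ hL hF hM hP hW hA hc hn n0 => ?_⟩
  have S1 : (1 : ℝ) ≤ S ^ 2 := by nlinarith
  have M1 : (1 : ℝ) ≤ M := (one_le_pow₀ S1).trans hL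
  have M0 : (0 : ℝ) < M := by linarith
  have Lt0 : (0 : ℝ) < Lt := by exact_mod_cast hLt
  obtain ⟨c, c2, c3, c4, c5, c6, c7, c8, c9⟩ := MP_d308c3_co.TT.exists_tt atm hA hτ hS (L := L)
    (by rw [le_div_iff₀ (by positivity), ← pow_succ']; exact hL) hLt (one Ω) fun _ => zero_le_one
  refine ⟨c, c2, c3, c4, c6, fun i _ => c7 i, c5.lam_mono (by linarith), fun i hi => ?_, ?_⟩
  · rw [div_mul_eq_mul_div, le_div_iff₀' Lt0]
    exact c8 i hi
  have tn : tot (one Ω) = Fintype.card Ω := by simp [tot, one]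
  have key := MP_d308c3_co.TT.ovs_le c5 c9 atm c6 (c7 L) hF (fun a b a' b' => hM a b a' b') hγ
    (by linarith) (by linarith) hC0 (zero_le_one.trans C1) hP (c2 ▸ hW) fun a => by
      refine le_trans (le_of_eq ?_) (hc a)
      simp [tot, res, one]
  rw [tn] at hn n0 ⊢
  have a0 : 0 ≤ ε * lg M := mul_nonneg e0.le (lg_nonneg M1)
  have a2 : lg (C0 * (F 0 M * (M : ℝ) ^ (γ + ε)) / Fintype.card Ω) ≤ lg C0 + 2 * ε * lg M := by
    rcases (hF 0 M).eq_or_lt with z | z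
    · rw [← z, zero_mul, mul_zero, zero_div, show lg 0 = 0 from Real.logb_zero]
      linarith
    have a1 : C0 * (F 0 M * (M : ℝ) ^ (γ + ε)) / Fintype.card Ω ≤ C0 * (M : ℝ) ^ (2 * ε) := by
      rw [div_le_iff₀ n0, show γ + ε = 2 * ε + (γ - ε) by ring, Real.rpow_add M0]
      have := mul_le_mul_of_nonneg_left hn (by positivity : 0 ≤ C0 * (M : ℝ) ^ (2 * ε))
      linarith
    refine (lg_mono (by positivity) a1).trans (le_of_eq ?_)
    rw [lg_mul (by positivity) (by positivity)]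
    simp only [lg, Real.logb_rpow_eq_mul_logb_of_pos M0]
  have a4 := mul_le_mul_of_nonneg_left a2 n0.le
  have a5 : 0 ≤ (Fintype.card Ω : ℝ) * (L * lg C0 + lg (MP_d308c3_co.TT.C3 γ C0 C) + ε * lg M) := by
    positivity
  rw [mul_assoc, div_mul_eq_mul_div, le_div_iff₀' hγ]
  simp only [E, one, one_mul]
  linarith

end Pool.Agent.Lib.MP_d308c3_co.K
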