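import Pool.Agent.Lib.MP_d308c3_co.K.St
import Pool.Agent.Lib.MP_d308c3_co.K.Chains

/-! The three telescoping statements. -/

namespace Pool.Agent.Lib.MP_d308c3_co.K

theorem t1 : Tel1St := fun _ _ _ _ _ _ _ _ _ K0 _ _ hA hN r h Γ => Arr.chain_col hA hN r h Γ K0

theorem t1b : Tel1bSt := fun _ _ A _ _ _ _ _ _ hA h => Arr.ahead hA h A.d.Gr

theorem t2 : Tel2St := fun _ _ A _ _ _ _ _ _ _ _ _ hA hN h x => by
  rw [mul_assoc]
  exact Arr.chain_row hA hN h x A.d.Gr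

end Pool.Agent.Lib.MP_d308c3_co.K
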