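import Pool.Agent.Lib.MP_d308c3_co.K.St
import Pool.Agent.Lib.MP_d308c3_co.LT.Tree
import Pool.Agent.Lib.MP_108739_an.F.Ent1

/-! The choice of the constants at the top level. -/

namespace Pool.Agent.Lib.MP_d308c3_co.K

open Finset Pool.Agent.Lib.MP_108739_an.F
open scoped Classical

theorem tot_res_one {Ω : Type} [Fintype Ω] (A : Ω → Prop) :
    tot (res (one Ω) A) = (#(univ.filter A) : ℝ) := by
  simp [tot, res, one]

theorem tot_one_le {Ω β : Type} [Fintype Ω] {A : Ω → Prop} {T : Finset β} (f : Ω → β)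
    (h1 : ∀ o, A o → f o ∈ T) (h2 : ∀ o o', A o → A o' → f o = f o' → o = o') :
    tot (res (one Ω) A) ≤ (#T : ℝ) := by
  rw [tot_res_one]
  exact Nat.cast_le.2 (card_le_card_of_injOn f (fun o ho => h1 o (by simpa using ho))
    fun o ho o' ho' h => h2 o o' (by simpa using ho) (by simpa using ho') h)

theorem tot_one (Ω : Type) [Fintype Ω] : tot (one Ω) = (Fintype.card Ω : ℝ) := by
  simp [tot, one]

theorem ex_level {y : ℝ} (hy : 1 < y) (K M : ℕ) (h : y ^ (K + 1) ≤ M) :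
    ∃ L, K ≤ L ∧ y ^ (L + 1) ≤ M ∧ (M : ℝ) ≤ y ^ (L + 2) := by
  obtain ⟨n, h1, h2⟩ := exists_nat_pow_near ((one_le_pow₀ hy.le).trans h) hy
  have : K + 1 < n + 1 := (pow_lt_pow_iff_right₀ hy).1 (h.trans_lt h2)
  obtain ⟨L, rfl⟩ : ∃ L, n = L + 1 := ⟨n - 1, by omega⟩
  exact ⟨L, by omega, h1, h2.le⟩

theorem ov_num {γ ε δ C3 l lM L : ℝ} (hγ : 0 < γ) (hε : 0 ≤ ε) (hδ : 0 < δ) (h3 : 0 ≤ C3)
    (hL : 2 ≤ L) (hl : 0 ≤ l) (h1 : ε ≤ γ * δ / 96) (h2 : 16 * C3 / (γ * δ) ≤ l)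
    (hM : lM ≤ (L + 2) * (2 * l)) : 4 / γ * (3 * ε * lM + C3 * (L + 1)) ≤ δ * L * l := by
  rw [div_le_iff₀ (by positivity)] at h2
  rw [div_mul_eq_mul_div, div_le_iff₀ hγ]
  have a1 : ε * lM ≤ ε * (4 * L * l) := by
    apply mul_le_mul_of_nonneg_left _ hε
    nlinarith
  have a2 : ε * (4 * L * l) ≤ γ * δ / 96 * (4 * L * l) :=
    mul_le_mul_of_nonneg_right h1 (by positivity)
  have a3 : C3 * (L + 1) ≤ C3 * (2 * L) := mul_le_mul_of_nonneg_left (by linarith) h3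
  have a4 : 16 * C3 * L ≤ l * (γ * δ) * L := mul_le_mul_of_nonneg_right h2 (by linarith)
  nlinarith

theorem top : TopSt := by
  intro tt mac en γ hγ hγ1
  obtain ⟨δ, k0, hδ, hk0, S1, en⟩ := en γ hγ hγ1
  obtain ⟨Lt, U, δ', ε0, hLt, hLtδ, hU, hδ', hε0, mac⟩ := mac γ δ hγ hγ1 hδ k0 hk0
  obtain ⟨δm, hδm, hm1, hm2⟩ : ∃ x : ℝ, 0 < x ∧ x ≤ δ ∧ x ≤ δ' :=
    ⟨min δ δ', lt_min hδ hδ', min_le_left _ _, min_le_right _ _⟩
  obtain ⟨ε, hε, e1, e2, e3, e4⟩ : ∃ x : ℝ, 0 < x ∧ x ≤ ε0 ∧ x ≤ 1 ∧ x ≤ δ ∧ x ≤ γ * δm / 96 :=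
    ⟨min (min ε0 1) (min δ (γ * δm / 96)),
      lt_min (lt_min hε0 one_pos) (lt_min hδ (by positivity)),
      (min_le_left _ _).trans (min_le_left _ _), (min_le_left _ _).trans (min_le_right _ _),
      (min_le_right _ _).trans (min_le_left _ _), (min_le_right _ _).trans (min_le_right _ _)⟩
  refine ⟨ε, hε, fun C0 hC0 => ?_⟩
  obtain ⟨Clt, hClt, lac⟩ := LT.lac_windows.{0} (half_pos hγ)
  obtain ⟨C3, hC3, tt⟩ := tt γ ε C0 Clt hγ hγ1 hε e2 hC0 hClt Lt hLt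
  obtain ⟨S2, mac⟩ := mac ε C0 hε e1 hC0
  obtain ⟨S, s0, s1, s2, s3⟩ : ∃ S : ℝ, 2 ≤ S ∧ S1 ≤ S ∧ S2 ≤ S ∧
      (2 : ℝ) ^ (16 * C3 / (γ * δm)) ≤ S :=
    ⟨max (max 2 S1) (max S2 (2 ^ (16 * C3 / (γ * δm)))),
      (le_max_left _ _).trans (le_max_left _ _), (le_max_right _ _).trans (le_max_left _ _),
      (le_max_left _ _).trans (le_max_right _ _), (le_max_right _ _).trans (le_max_right _ _)⟩
  have hS : 0 < S := by linarith
  have s3' : 16 * C3 / (γ * δm) ≤ lg S := (Real.le_logb_iff_rpow_le one_lt_two hS).2 s3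
  have hl : 0 ≤ lg S := Real.logb_nonneg one_lt_two (by linarith)
  obtain ⟨η, hη, hη1, mac⟩ := mac S s2
  have hLt' : (1 : ℝ) ≤ Lt := by exact_mod_cast hLt
  obtain ⟨L0, en⟩ := en (96 * Lt) S η U (by linarith) s1 hη hη1 hU
  refine ⟨⌈(S ^ 2) ^ (max L0 2 + 1)⌉₊, fun Z t m s M hM ht _ _ off hs pw hP big => ?_⟩
  have hy : 1 < S ^ 2 := by nlinarith
  obtain ⟨L, hL, hL1, hL2⟩ := ex_level hy (max L0 2) M (Nat.ceil_le.1 hM)
  have hM1 : (1 : ℝ) ≤ M := (one_le_pow₀ hy.le).trans hL1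
  let x : Run := ⟨Z, t, m, ht, off⟩
  let It : Finset (ℕ × Pt) :=
    (range M ×ˢ Z).filter fun q => q.2 ∈ Cut.Ch x.U Z (s q.1) (s (q.1 + 1))
  let G : Geo It := ⟨x, s, fun o => o.1.1, fun o => o.1.2⟩
  have mem : ∀ o : It, o.1.1 < M ∧ o.1.2 ∈ Cut.Ch x.U Z (s o.1.1) (s (o.1.1 + 1)) := fun o => by
    have := mem_filter.1 o.2
    exact ⟨mem_range.1 (mem_product.1 this.1).1, this.2⟩
  have inj : ∀ o o' : It, o.1.1 = o'.1.1 → o.1.2 = o'.1.2 → o = o' := fun o o' h1 h2 =>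
    Subtype.ext (Prod.ext h1 h2)
  have card : ((∑ i ∈ range M, (Cut.Ch x.U Z (s i) (s (i + 1))).card : ℕ) : ℝ) = tot (one It) := by
    rw [tot_one, Fintype.card_coe, card_eq_sum_card_fiberwise (f := Prod.fst) (t := range M)
      (fun q hq => by simpa using (mem ⟨q, hq⟩).1)]
    congr 1
    refine sum_congr rfl fun i hi => ?_
    refine card_bij (fun p _ => (i, p)) (fun p hp => ?_) (fun p _ q _ h => (Prod.ext_iff.1 h).2)
      (fun q hq => ?_)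
    · exact mem_filter.2 ⟨mem_filter.2 ⟨mem_product.2 ⟨hi, Cut.Ch_subset hp⟩, hp⟩, rfl⟩
    · obtain ⟨h1, rfl⟩ := mem_filter.1 hq
      exact ⟨q.2, (mem ⟨q, h1⟩).2, rfl⟩
  have big' : (M : ℝ) ^ (γ - ε) * G.Ph Z 0 M ≤ tot (one It) := card ▸ big
  have hP' : 0 < G.Ph Z 0 M := by
    have : (0 : ℝ) < (Cut.Phi (Cut.St Prod.fst Prod.snd t m) Z (s 0) (s M) : ℝ) := by
      exact_mod_cast hP
    exact this
  have pos : 0 < tot (one It) := lt_of_lt_of_le (by positivity) big'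
  have nn : Nn (one It) := fun _ => zero_le_one
  have atom : ∀ i, tot (res (one It) fun o => o.1.1 = i) ≤ G.Ph Z i (i + 1) := fun i => by
    exact (tot_one_le (fun o => o.1.2) (fun o ho => ho ▸ (mem o).2)
      fun o o' h1 h2 h => inj o o' (h1.trans h2.symm) h).trans
      (Nat.cast_le.2 (Nat.le_add_right _ _))
  obtain ⟨c, c1, c2, c3, c4, c5, c6, c7, c8⟩ := tt S s0 M L (fun j => t (s j)) (G.Ph Z) It
    (fun o => o.1.1) (ht.comp hs) hL1 (fun _ _ => Nat.cast_nonneg _)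
    (fun i j i' j' h1 h2 => Nat.cast_le.2 (Cut.Phi_mono (hs.monotone h1) (hs.monotone h2)))
    ((pw Z Subset.rfl).comp hs.monotone)
    (fun k n z hk hz => lac Z Prod.fst Prod.snd t m (fun j => s (k j)) n z
      (fun i j a b => hs.monotone (hk i j a b)) (fun _ _ _ h _ => ht.monotone h) hz)
    (fun o => (mem o).1) atom big' pos
  have GOk : G.Ok c L := ⟨hs, fun j => by rw [c1], inj, fun o => (mem o).2, c5⟩
  have hL3 : (2 : ℝ) ≤ L := by exact_mod_cast (le_max_right _ _).trans hL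
  have lM : lg M ≤ (L + 2) * (2 * lg S) := by
    have := Real.logb_le_logb_of_le one_lt_two (by linarith) hL2
    rw [Real.logb_pow, Real.logb_pow] at this
    simpa [lg] using this
  have ov : E (one It) (c.ovs L) ≤ δm * L * lg S * tot (one It) :=
    c8.trans (mul_le_mul_of_nonneg_right (ov_num hγ hε.le hδm hC3 hL3 hl e4 s3' lM) pos.le)
  have ov' : ∀ y, δm ≤ y → E (one It) (c.ovs L) ≤ y * L * lg S * tot (one It) := fun y hy =>
    ov.trans (by gcongr)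
  refine en L ((le_max_left _ _).trans hL) It c (fun o => (G.pt o).1) (fun o => (G.pt o).2)
    (one It) nn pos c3 c6 (fun o o' => (c4 o).trans (c4 o').symm) (fun o => ?_) (c2 ▸ hL2)
    (fun i hi o => ?_) ?_ (ov' δ hm1) (fun i hi => (c7 i hi).trans (by gcongr))
    (mac It c G L M c3 c2 hL2 c6 GOk c4 pw big' (ov' δ' hm2) c7)
  · have := Prod.ext_iff.1 (c4 o)
    simp only [TT.W] at this
    simp [TT.N, this.1, this.2, c2]
  · rw [TT.mu, ms_eq_tot, TT.N, ← Nat.card_Ico]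
    refine tot_one_le (fun o => o.1.1) (fun o' ho => ?_) fun o1 o2 h1 h2 h =>
      inj o1 o2 h ((Prod.ext_iff.1 h1).2.trans (Prod.ext_iff.1 h2).2.symm)
    have h1 := Prod.ext_iff.1 (Prod.ext_iff.1 ho).1
    simp only [pr, TT.W] at h1
    have := c5 i hi o'
    rw [mem_Ico]
    omega
  · refine le_trans ?_ big'
    rw [mul_comm, c2]
    refine mul_le_mul (Real.rpow_le_rpow_of_exponent_le hM1 (by linarith))
      (Nat.cast_le.2 (le_trans (card_le_card fun p hp => ?_) (Nat.le_add_right _ _)))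
      (Nat.cast_nonneg _) (by positivity)
    obtain ⟨o, -, rfl⟩ := mem_image.1 hp
    exact Cut.Ch_mono Subset.rfl (hs.monotone (Nat.zero_le _)) (hs.monotone (mem o).1) (mem o).2

end Pool.Agent.Lib.MP_d308c3_co.K
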