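import Pool.Agent.Lib.MP_d308c3_co.K.St
import Pool.Agent.Lib.MP_d308c3_co.K.Fib

set_option autoImplicit false

/-! The scales of the labels that see one item decrease. -/

namespace Pool.Agent.Lib.MP_d308c3_co.K

open Finset Pool.Agent.Lib.MP_108739_an.F
open scoped Classical

theorem uq : UniqSt := by
  intro Ω _ d w Λ η hw hη hd c c' l l' o1 o2 o h h' p2 l1 x1 l2 x2
  have L1 := hd.lab c (by omega)
  have L2 := hd.lab c' h'
  have m := L2.m2 o2 l' p2 l2
  have ex : ∃ o3, d.nd c' o3 = d.nd c' o2 ∧ d.par c' l' o3 := by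
    by_contra hn
    have : tot (res w fun o' => d.nd c' o' = d.nd c' o2 ∧ d.par c' l' o') = 0 :=
      sum_eq_zero fun o' _ => if_neg fun a => hn ⟨o', a⟩
    have := mul_pos hη (ms_pos hw (d.nd c') p2)
    linarith
  obtain ⟨o3, e3, p3⟩ := ex
  have s1 := L2.sep o2 l' o3 l2 e3 p3
  have bk := Fib.nd_det hd (show c + 1 ≤ c' from h) h'.le
  have s2 := L1.prog o1 l o o2 l1 x1 (bk _ _ x2.1.symm)
  have s3 := L1.prog o1 l o o3 l1 x1 (bk _ _ (e3.trans x2.1.symm))
  have s4 := abs_sub_le (d.a o2) (d.a o) (d.a o3)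
  rw [abs_sub_comm (d.a o2) (d.a o)] at s4
  rw [zpow_sub₀ two_ne_zero] at s2 s3
  have q : (0 : ℝ) < 2 ^ l.2 := by positivity
  norm_num at s2 s3
  exact (zpow_lt_zpow_iff_right₀ (one_lt_two : (1 : ℝ) < 2)).1 (by linarith)

end Pool.Agent.Lib.MP_d308c3_co.K
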